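import Pool.Agent.H20.Codes

/-! Exponential growth of the number of codes. -/

namespace Pool.Agent.H20

open Finset

set_option linter.unusedSectionVars false

variable {V : Type*} [DecidableEq V] [Fintype V]

open Classical in
/-- number of toggled leaves whose parent slot lies below `v` -/
noncomputable def below (p : V → V) (X : Finset V) (v : V) : ℕ :=
  (X.filter (fun x => Anc p v (p x))).card

/-- growth rate -/
noncomputable def rate (D : ℕ) : ℝ := Real.log (1 + 1 / (D : ℝ)) / ((D : ℝ) ^ 2)

lemma rate_pos {D : ℕ} (hD : 1 ≤ D) : 0 < rate D := by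
  unfold rate
  have hD' : (0 : ℝ) < D := by exact_mod_cast hD
  apply div_pos
  · apply Real.log_pos
    have : 0 < 1 / (D : ℝ) := by positivity
    linarith
  · positivity

lemma exp_rate_sq {D : ℕ} (hD : 1 ≤ D) : Real.exp (rate D * (D : ℝ) ^ 2) = 1 + 1 / (D : ℝ) := by
  unfold rate
  have hD' : (0 : ℝ) < D := by exact_mod_cast hD
  rw [div_mul_cancel₀ _ (by positivity), Real.exp_log (by positivity)]

lemma exp_rate_le {D : ℕ} (hD : 1 ≤ D) {q : ℝ} (hq : q ≤ (D : ℝ) ^ 2) :
    Real.exp (rate D * q) ≤ 1 + 1 / (D : ℝ) := by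
  rw [← exp_rate_sq hD]
  apply Real.exp_le_exp.mpr
  exact mul_le_mul_of_nonneg_left hq (rate_pos hD).le

lemma exp_rate_one_le {D : ℕ} (hD : 1 ≤ D) : Real.exp (rate D) ≤ 2 := by
  have hD' : (1 : ℝ) ≤ D := by exact_mod_cast hD
  have h1 : Real.exp (rate D * 1) ≤ 1 + 1 / (D : ℝ) := exp_rate_le hD (by nlinarith)
  rw [mul_one] at h1
  have h2 : 1 / (D : ℝ) ≤ 1 := by
    rw [div_le_one (by linarith)]
    exact hD'
  linarith

namespace LeafData

variable {ρ : V} {p : V → V} {dep : V → ℕ} {a : V → V} {X : Finset V}

lemma exists_child (h : IsRT ρ p dep) {v z : V} (ha : Anc p v z) (hne : z ≠ v) :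
    ∃ c, c ≠ ρ ∧ p c = v ∧ Anc p c z := by
  classical
  obtain hk := Nat.find_spec ha
  have hk0 : Nat.find ha ≠ 0 := by
    intro h0
    rw [h0] at hk
    exact hne hk
  obtain ⟨k, hk1⟩ := Nat.exists_eq_succ_of_ne_zero hk0
  have hk2 : p^[k] z ≠ v := by
    intro hh
    have := Nat.find_min ha (m := k) (by omega)
    exact this hh
  rw [hk1] at hk
  have hk3 : p (p^[k] z) = v := by
    rw [← Function.iterate_succ_apply' p k z]; exact hk
  refine ⟨p^[k] z, ?_, hk3, ⟨k, rfl⟩⟩
  intro hr
  rw [hr, h.root] at hk3
  exact hk2 (hr.trans hk3)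

lemma below_le (h : LeafData ρ p dep a X) (v : V) :
    below p X v ≤ (X.filter (fun x => p x = v)).card + ∑ c ∈ coreCh ρ p X v, below p X c := by
  classical
  unfold below
  calc (X.filter (fun x => Anc p v (p x))).card
      ≤ ((X.filter (fun x => p x = v)) ∪
        (coreCh ρ p X v).biUnion (fun c => X.filter (fun x => Anc p c (p x)))).card := by
        apply Finset.card_le_card
        intro x hx
        rw [mem_filter] at hx
        rw [mem_union, mem_biUnion]
        by_cases hxv : p x = v
        · left
          rw [mem_filter]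
          exact ⟨hx.1, hxv⟩
        · right
          obtain ⟨c, hc, hcv, hca⟩ := exists_child h.rt hx.2 hxv
          refine ⟨c, ?_, ?_⟩
          · simp only [coreCh, mem_filter, mem_univ, true_and]
            refine ⟨hc, hcv, ?_⟩
            intro hcX
            exact h.not_anc_parent hcX hca
          · rw [mem_filter]
            exact ⟨hx.1, hca⟩
    _ ≤ _ := by
        refine (Finset.card_union_le _ _).trans ?_
        gcongr
        exact Finset.card_biUnion_le

lemma slot_count (h : LeafData ρ p dep a X) (v : V) :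
    (X.filter (fun x => p x = v)).card ≤ 1 := by
  rw [Finset.card_le_one]
  intro x hx y hy
  rw [mem_filter] at hx hy
  exact h.slots.pp x hx.1 y hy.1 (hx.2.trans hy.2.symm)

/-- combined bound: `2 ^ s * core ≤ full` -/
lemma pow_core_le (h : LeafData ρ p dep a X) (k : ℕ) (v : V) :
    2 ^ (X.filter (fun x => p x = v)).card * (coreSet ρ p a X k (coreCh ρ p X v)).card
      ≤ (codeSet ρ p a X (k + 1) v).card := by
  rw [card_codeSet_succ]
  rcases Nat.le_one_iff_eq_zero_or_eq_one.mp (h.slot_count v) with h1 | h1
  · rw [h1, pow_zero, one_mul]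
    exact h.core_le_full k v
  · rw [h1, pow_one]
    obtain ⟨x0, hx0⟩ := Finset.card_pos.mp (by omega : 0 < (X.filter (fun x => p x = v)).card)
    rw [mem_filter] at hx0
    exact h.two_core_le_full k v x0 hx0.1 hx0.2

theorem growth (h : LeafData ρ p dep a X) (D : ℕ) (hD : 1 ≤ D)
    (hdeg : ∀ v, (coreCh ρ p X v).card ≤ D) (N : ℕ) (hN : ∀ v, dep v < N) :
    ∀ k v, v ∉ X → N ≤ dep v + k →
      (below p X v + 1 ≤ (codeSet ρ p a X k v).card) ∧
      (D ≤ below p X v → (D : ℝ) * Real.exp (rate D * (below p X v : ℝ)) ≤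
        ((codeSet ρ p a X k v).card : ℝ)) := by
  intro k
  induction k with
  | zero =>
    intro v _ hv
    have := hN v
    omega
  | succ k ih =>
    intro v hvX hv
    have hD' : (1 : ℝ) ≤ D := by exact_mod_cast hD
    -- children
    have hch : ∀ c ∈ coreCh ρ p X v, c ∉ X ∧ N ≤ dep c + k := by
      intro c hc
      simp only [coreCh, mem_filter, mem_univ, true_and] at hc
      refine ⟨hc.2.2, ?_⟩
      have := h.rt.dep_p c hc.1
      rw [hc.2.1] at this
      omega
    have ihc : ∀ c ∈ coreCh ρ p X v, (below p X c + 1 ≤ (codeSet ρ p a X k c).card) ∧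
        (D ≤ below p X c → (D : ℝ) * Real.exp (rate D * (below p X c : ℝ)) ≤
          ((codeSet ρ p a X k c).card : ℝ)) := fun c hc => ih c (hch c hc).1 (hch c hc).2
    set s := (X.filter (fun x => p x = v)).card with hs
    have hs1 : s ≤ 1 := h.slot_count v
    have hbel := h.below_le v
    rw [← hs] at hbel
    have hfull := h.pow_core_le k v
    rw [← hs] at hfull
    have hcoreadd := h.card_core_add k v (coreCh ρ p X v) (Finset.Subset.refl _)
    have hsum1 : ∑ c ∈ coreCh ρ p X v, below p X c + (coreCh ρ p X v).card ≤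
        ∑ c ∈ coreCh ρ p X v, (codeSet ρ p a X k c).card := by
      rw [Finset.card_eq_sum_ones, ← Finset.sum_add_distrib]
      exact Finset.sum_le_sum (fun c hc => (ihc c hc).1)
    have hA : below p X v + 1 ≤ (codeSet ρ p a X (k + 1) v).card := by
      refine le_trans ?_ hfull
      have h1 : 1 + ∑ c ∈ coreCh ρ p X v, below p X c ≤
          (coreSet ρ p a X k (coreCh ρ p X v)).card := by omega
      rcases Nat.le_one_iff_eq_zero_or_eq_one.mp hs1 with h2 | h2
      · rw [h2, pow_zero]; omega
      · rw [h2, pow_one]; omega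
    refine ⟨hA, ?_⟩
    intro hbig
    by_cases hcase : ∀ c ∈ coreCh ρ p X v, below p X c < D
    · -- all children small
      have h1 : ∑ c ∈ coreCh ρ p X v, below p X c ≤ D * (D - 1) := by
        calc ∑ c ∈ coreCh ρ p X v, below p X c ≤ ∑ c ∈ coreCh ρ p X v, (D - 1) :=
              Finset.sum_le_sum (fun c hc => by have := hcase c hc; omega)
          _ = (coreCh ρ p X v).card * (D - 1) := by simp
          _ ≤ D * (D - 1) := Nat.mul_le_mul_right _ (hdeg v)
      have h2 : below p X v ≤ D ^ 2 := by
        have h3 : D * (D - 1) + 1 ≤ D ^ 2 := by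
          obtain ⟨m, rfl⟩ := Nat.exists_eq_succ_of_ne_zero (by omega : D ≠ 0)
          simp only [Nat.succ_eq_add_one, Nat.add_sub_cancel]
          nlinarith
        omega
      have h3 : (below p X v : ℝ) ≤ (D : ℝ) ^ 2 := by exact_mod_cast h2
      have h4 := exp_rate_le hD h3
      have h5 : (D : ℝ) * Real.exp (rate D * (below p X v : ℝ)) ≤ D * (1 + 1 / (D : ℝ)) :=
        mul_le_mul_of_nonneg_left h4 (by positivity)
      have h6 : (D : ℝ) * (1 + 1 / (D : ℝ)) = D + 1 := by
        field_simp
      rw [h6] at h5
      have h7 : ((D + 1 : ℕ) : ℝ) ≤ ((codeSet ρ p a X (k + 1) v).card : ℝ) := by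
        exact_mod_cast (by omega : D + 1 ≤ (codeSet ρ p a X (k + 1) v).card)
      push_cast at h7
      linarith
    · -- some child is big
      push Not at hcase
      obtain ⟨c0, hc0, hc0D⟩ := hcase
      have h1 := h.card_core_mul k v D (hdeg v) c0 hc0 ((coreCh ρ p X v).erase c0)
        (Finset.Subset.refl _)
      rw [Finset.insert_erase hc0] at h1
      have h2 := (ihc c0 hc0).2 hc0D
      have h3 : ∀ c ∈ (coreCh ρ p X v).erase c0, Real.exp (rate D * (below p X c : ℝ)) ≤
          1 + (((codeSet ρ p a X k c).card : ℝ) - 1) / D := by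
        intro c hc
        have hc' := (Finset.mem_erase.mp hc).2
        obtain ⟨i1, i2⟩ := ihc c hc'
        have hi1 : (below p X c : ℝ) + 1 ≤ ((codeSet ρ p a X k c).card : ℝ) := by
          exact_mod_cast i1
        by_cases hq : D ≤ below p X c
        · have i3 := i2 hq
          have i4 : Real.exp (rate D * (below p X c : ℝ)) ≤
              ((codeSet ρ p a X k c).card : ℝ) / D := by
            rw [le_div_iff₀ (by linarith)]
            linarith
          have i5 : (((codeSet ρ p a X k c).card : ℝ) - 1) / D =
              ((codeSet ρ p a X k c).card : ℝ) / D - 1 / D := by ring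
          have i6 : 1 / (D : ℝ) ≤ 1 := by
            rw [div_le_one (by linarith)]
            exact hD'
          rw [i5]
          linarith
        · by_cases hq0 : below p X c = 0
          · rw [hq0]
            simp only [Nat.cast_zero, mul_zero, Real.exp_zero]
            have : 0 ≤ (((codeSet ρ p a X k c).card : ℝ) - 1) / D := by
              apply div_nonneg _ (by linarith)
              rw [hq0] at hi1
              push_cast at hi1
              linarith
            linarith
          · have i3 : (below p X c : ℝ) ≤ (D : ℝ) ^ 2 := by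
              have : below p X c ≤ D ^ 2 := by nlinarith
              exact_mod_cast this
            have i4 := exp_rate_le hD i3
            have i5 : (1 : ℝ) ≤ (below p X c : ℝ) := by
              exact_mod_cast Nat.one_le_iff_ne_zero.mpr hq0
            have i6 : 1 / (D : ℝ) ≤ (((codeSet ρ p a X k c).card : ℝ) - 1) / D := by
              apply div_le_div_of_nonneg_right _ (by linarith)
              linarith
            linarith
      have h4 : ∏ c ∈ (coreCh ρ p X v).erase c0, Real.exp (rate D * (below p X c : ℝ)) ≤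
          ∏ c ∈ (coreCh ρ p X v).erase c0, (1 + (((codeSet ρ p a X k c).card : ℝ) - 1) / D) :=
        Finset.prod_le_prod (fun _ _ => (Real.exp_pos _).le) h3
      have h5 : (D : ℝ) * Real.exp (rate D * (∑ c ∈ coreCh ρ p X v, below p X c : ℕ)) ≤
          ((coreSet ρ p a X k (coreCh ρ p X v)).card : ℝ) := by
        refine le_trans ?_ h1
        calc (D : ℝ) * Real.exp (rate D * (∑ c ∈ coreCh ρ p X v, below p X c : ℕ))
            = ((D : ℝ) * Real.exp (rate D * (below p X c0 : ℝ))) *
              ∏ c ∈ (coreCh ρ p X v).erase c0, Real.exp (rate D * (below p X c : ℝ)) := by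
              rw [← Real.exp_sum, mul_assoc, ← Real.exp_add, ← Finset.mul_sum, ← mul_add,
                Finset.add_sum_erase _ (fun c => (below p X c : ℝ)) hc0]
              push_cast
              rfl
          _ ≤ _ := by
              apply mul_le_mul h2 h4
              · exact Finset.prod_nonneg (fun _ _ => (Real.exp_pos _).le)
              · positivity
      have h6 : Real.exp (rate D * (s : ℝ)) ≤ 2 ^ s := by
        rcases Nat.le_one_iff_eq_zero_or_eq_one.mp hs1 with h2 | h2
        · rw [h2]; simp
        · rw [h2]; simpa using exp_rate_one_le hD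
      have h7 : ((2 ^ s * (coreSet ρ p a X k (coreCh ρ p X v)).card : ℕ) : ℝ) ≤
          ((codeSet ρ p a X (k + 1) v).card : ℝ) := by exact_mod_cast hfull
      push_cast at h7
      calc (D : ℝ) * Real.exp (rate D * (below p X v : ℝ))
          ≤ (D : ℝ) * Real.exp (rate D * ((s : ℝ) +
            (∑ c ∈ coreCh ρ p X v, below p X c : ℕ))) := by
            apply mul_le_mul_of_nonneg_left _ (by positivity)
            apply Real.exp_le_exp.mpr
            apply mul_le_mul_of_nonneg_left _ (rate_pos hD).le
            exact_mod_cast hbel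
        _ = Real.exp (rate D * (s : ℝ)) * ((D : ℝ) *
            Real.exp (rate D * (∑ c ∈ coreCh ρ p X v, below p X c : ℕ))) := by
            rw [mul_add, Real.exp_add]; ring
        _ ≤ 2 ^ s * ((coreSet ρ p a X k (coreCh ρ p X v)).card : ℝ) := by
            apply mul_le_mul h6 h5 (by positivity) (by positivity)
        _ ≤ _ := h7

/-- The number of codes at the root. -/
theorem root_growth (h : LeafData ρ p dep a X) (D : ℕ) (hD : 1 ≤ D)
    (hdeg : ∀ v, (coreCh ρ p X v).card ≤ D) (N : ℕ) (hN : ∀ v, dep v < N) :
    Real.exp (rate D * (X.card : ℝ)) ≤ ((codeSet ρ p a X N ρ).card : ℝ) := by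
  classical
  have hq : below p X ρ = X.card := by
    unfold below
    congr 1
    rw [Finset.filter_eq_self]
    intro x _
    exact h.rt.anc_root _
  obtain ⟨h1, h2⟩ := h.growth D hD hdeg N hN N ρ h.root_notMem (by omega)
  rw [hq] at h1 h2
  have hD' : (1 : ℝ) ≤ D := by exact_mod_cast hD
  by_cases hX : D ≤ X.card
  · have h3 := h2 hX
    have h4 : Real.exp (rate D * (X.card : ℝ)) ≤ D * Real.exp (rate D * (X.card : ℝ)) := by
      have := Real.exp_pos (rate D * (X.card : ℝ))
      nlinarith
    linarith
  · have h3 : ((X.card : ℝ)) + 1 ≤ ((codeSet ρ p a X N ρ).card : ℝ) := by exact_mod_cast h1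
    by_cases h0 : X.card = 0
    · rw [h0] at h3 ⊢
      simp at h3 ⊢
      exact h3
    · have h5 : (X.card : ℝ) ≤ (D : ℝ) ^ 2 := by
        have : X.card ≤ D ^ 2 := by nlinarith
        exact_mod_cast this
      have h6 := exp_rate_le hD h5
      have h7 : 1 / (D : ℝ) ≤ 1 := by
        rw [div_le_one (by linarith)]
        exact hD'
      have h8 : (1 : ℝ) ≤ (X.card : ℝ) := by
        exact_mod_cast Nat.one_le_iff_ne_zero.mpr h0
      linarith

end LeafData

end Pool.Agent.H20
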