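import Mathlib

/-! Merge inequalities for finite sets of multisets. -/

namespace Pool.Agent.H20

open Finset
open scoped Pointwise

/-- All multisets `e ::ₘ m` with `m ∈ A` and `e ∈ B`. -/
def mrg (A : Finset (Multiset ℕ)) (B : Finset ℕ) : Finset (Multiset ℕ) :=
  (A ×ˢ B).image (fun x => x.2 ::ₘ x.1)

lemma mem_mrg {A : Finset (Multiset ℕ)} {B : Finset ℕ} {t : Multiset ℕ} :
    t ∈ mrg A B ↔ ∃ m ∈ A, ∃ e ∈ B, e ::ₘ m = t := by
  unfold mrg
  simp only [mem_image, mem_product, Prod.exists]
  constructor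
  · rintro ⟨m, e, ⟨hm, he⟩, h⟩
    exact ⟨m, hm, e, he, h⟩
  · rintro ⟨m, hm, e, he, h⟩
    exact ⟨m, e, ⟨hm, he⟩, h⟩

/-- the counting vector of a multiset -/
def cvec (m : Multiset ℕ) : ℕ → ℤ := fun e => (m.count e : ℤ)

lemma cvec_injective : Function.Injective cvec := by
  intro m m' h
  ext e
  have := congrFun h e
  unfold cvec at this
  exact_mod_cast this

lemma cvec_cons (e : ℕ) (m : Multiset ℕ) : cvec (e ::ₘ m) = cvec m + Pi.single e 1 := by
  funext f
  simp only [cvec, Pi.add_apply, Multiset.count_cons, Pi.single_apply]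
  split_ifs <;> simp

lemma single_inj : Function.Injective (fun e : ℕ => (Pi.single e 1 : ℕ → ℤ)) := by
  intro e f h
  by_contra hne
  have := congrFun h e
  simp only [Pi.single_eq_same] at this
  rw [Pi.single_eq_of_ne hne] at this
  exact one_ne_zero this

lemma card_mrg_add (A : Finset (Multiset ℕ)) (B : Finset ℕ) (hA : A.Nonempty) (hB : B.Nonempty) :
    A.card + B.card ≤ (mrg A B).card + 1 := by
  classical
  have h1 : ((mrg A B).image cvec) =
      (A.image cvec) + (B.image (fun e : ℕ => (Pi.single e 1 : ℕ → ℤ))) := by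
    ext x
    simp only [mem_image, mem_mrg, Finset.mem_add]
    constructor
    · rintro ⟨t, ⟨m, hm, e, he, rfl⟩, rfl⟩
      exact ⟨cvec m, ⟨m, hm, rfl⟩, _, ⟨e, he, rfl⟩, (cvec_cons e m).symm⟩
    · rintro ⟨y, ⟨m, hm, rfl⟩, z, ⟨e, he, rfl⟩, rfl⟩
      exact ⟨_, ⟨m, hm, e, he, rfl⟩, cvec_cons e m⟩
  have h2 := cauchy_davenport_of_isAddTorsionFree (hA.image cvec)
    (hB.image (fun e : ℕ => (Pi.single e 1 : ℕ → ℤ)))
  rw [← h1, card_image_of_injective _ cvec_injective, card_image_of_injective _ cvec_injective,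
    card_image_of_injective _ single_inj] at h2
  have := hB.card_pos
  omega

lemma card_mrg_mul (A : Finset (Multiset ℕ)) (B : Finset ℕ) (i : ℕ) (hB : B.Nonempty)
    (hA : ∀ m ∈ A, m.card = i) :
    (A.card : ℝ) * ((B.card + i) / (i + 1)) ≤ (mrg A B).card := by
  classical
  -- number of elements in B
  set s : Multiset ℕ → ℕ := fun m => ∑ e ∈ B, m.count e with hs
  have hsle : ∀ m, s m ≤ m.card := by
    intro m
    have : s m = (m.filter (· ∈ B)).card := by
      rw [hs]
      simp only
      rw [← Multiset.sum_count_eq_card (s := B) (m := m.filter (· ∈ B))]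
      · apply Finset.sum_congr rfl
        intro e he
        rw [Multiset.count_filter_of_pos he]
      · intro a ha
        exact (Multiset.mem_filter.mp ha).2
    rw [this]
    exact Multiset.card_le_card (Multiset.filter_le _ _)
  have hscons : ∀ m, ∀ e ∈ B, s (e ::ₘ m) = s m + 1 := by
    intro m e he
    simp only [hs, Multiset.count_cons, Finset.sum_add_distrib]
    congr 1
    rw [Finset.sum_ite_eq' B e (fun _ => 1)]
    simp [he]
  let w : Multiset ℕ × ℕ → ℝ := fun x => ((x.2 ::ₘ x.1).count x.2 : ℝ) / (s (x.2 ::ₘ x.1) : ℝ)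
  have hw0 : ∀ x, 0 ≤ w x := fun x => by positivity
  -- upper bound
  have hub : ∑ x ∈ A ×ˢ B, w x ≤ (mrg A B).card := by
    rw [← Finset.sum_fiberwise_of_maps_to (t := mrg A B) (g := fun x => x.2 ::ₘ x.1)]
    · have : ((mrg A B).card : ℝ) = ∑ t ∈ mrg A B, (1 : ℝ) := by simp
      rw [this]
      apply Finset.sum_le_sum
      intro t ht
      have h1 : ∑ x ∈ A ×ˢ B with x.2 ::ₘ x.1 = t, w x
          = ∑ x ∈ A ×ˢ B with x.2 ::ₘ x.1 = t, (t.count x.2 : ℝ) / (s t : ℝ) := by
        apply Finset.sum_congr rfl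
        intro x hx
        rw [mem_filter] at hx
        simp only [w, hx.2]
      rw [h1]
      have h2 : ∑ x ∈ A ×ˢ B with x.2 ::ₘ x.1 = t, (t.count x.2 : ℝ) / (s t : ℝ)
          = ∑ e ∈ (({x ∈ A ×ˢ B | x.2 ::ₘ x.1 = t} : Finset (Multiset ℕ × ℕ)).image Prod.snd),
            (t.count e : ℝ) / (s t : ℝ) := by
        rw [Finset.sum_image]
        intro x hx y hy hxy
        simp only [coe_filter, Set.mem_ofPred_eq] at hx hy
        have h3 : x.2 ::ₘ x.1 = y.2 ::ₘ y.1 := hx.2.trans hy.2.symm
        rw [hxy] at h3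
        have h4 := (Multiset.cons_inj_right _).mp h3
        exact Prod.ext h4 hxy
      rw [h2]
      calc _ ≤ ∑ e ∈ B, (t.count e : ℝ) / (s t : ℝ) := by
            apply Finset.sum_le_sum_of_subset_of_nonneg
            · intro e he
              simp only [mem_image, mem_filter, mem_product] at he
              obtain ⟨x, ⟨⟨_, hx⟩, _⟩, rfl⟩ := he
              exact hx
            · intros; positivity
        _ = (s t : ℝ) / (s t : ℝ) := by
            rw [← Finset.sum_div]
            congr 1
            simp [hs]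
        _ ≤ 1 := div_self_le_one _
    · intro x hx
      rw [mem_mrg]
      rw [mem_product] at hx
      exact ⟨x.1, hx.1, x.2, hx.2, rfl⟩
  -- lower bound
  have hlb : (A.card : ℝ) * ((B.card + i) / (i + 1)) ≤ ∑ x ∈ A ×ˢ B, w x := by
    rw [Finset.sum_product]
    have : (A.card : ℝ) * ((B.card + i) / (i + 1)) = ∑ m ∈ A, (((B.card : ℝ) + i) / (i + 1)) := by
      simp
    rw [this]
    apply Finset.sum_le_sum
    intro m hm
    have h1 : ∑ e ∈ B, w (m, e) = ((s m : ℝ) + B.card) / (s m + 1) := by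
      have : ∀ e ∈ B, w (m, e) = ((m.count e : ℝ) + 1) / (s m + 1) := by
        intro e he
        simp only [w, Multiset.count_cons_self, hscons m e he]
        push_cast
        rfl
      rw [Finset.sum_congr rfl this, ← Finset.sum_div, Finset.sum_add_distrib]
      simp [hs]
    rw [h1]
    have h2 : (s m : ℝ) ≤ i := by
      have := hsle m
      rw [hA m hm] at this
      exact_mod_cast this
    have h3 : (1 : ℝ) ≤ B.card := by
      exact_mod_cast hB.card_pos
    rw [div_le_div_iff₀ (by positivity) (by positivity)]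
    nlinarith
  exact hlb.trans hub

end Pool.Agent.H20
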