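import Pool.Agent.H20.ParentFn
import Pool.Agent.H20.Merge

/-! Codes of rooted trees and the exponential lower bound when there are many leaves. -/

namespace Pool.Agent.H20

open Finset

set_option linter.unusedSectionVars false

variable {V : Type*} [DecidableEq V]

/-- Toggled parent function. -/
def tog (p a : V → V) (S : Finset V) (v : V) : V := if v ∈ S then a v else p v

/-- Slot-disjoint family. -/
structure Slots (p a : V → V) (U : Finset V) : Prop where
  ne : ∀ u ∈ U, a u ≠ p u
  pp : ∀ u ∈ U, ∀ u' ∈ U, p u = p u' → u = u'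
  aa : ∀ u ∈ U, ∀ u' ∈ U, a u = a u' → u = u'
  pa : ∀ u ∈ U, ∀ u' ∈ U, p u = a u' → u = u'

lemma Slots.mono {p a : V → V} {U U' : Finset V} (h : Slots p a U) (hU : U' ⊆ U) :
    Slots p a U' :=
  ⟨fun u hu => h.ne u (hU hu), fun u hu u' hu' => h.pp u (hU hu) u' (hU hu'),
    fun u hu u' hu' => h.aa u (hU hu) u' (hU hu'), fun u hu u' hu' => h.pa u (hU hu) u' (hU hu')⟩

lemma Slots.eq_of_tog {p a : V → V} {U S S' : Finset V} (h : Slots p a U) {u u' w : V}
    (hu : u ∈ U) (hu' : u' ∈ U) (h1 : tog p a S u = w) (h2 : tog p a S' u' = w) : u = u' := by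
  unfold tog at h1 h2
  split_ifs at h1 h2
  · exact h.aa u hu u' hu' (h1.trans h2.symm)
  · exact (h.pa u' hu' u hu (h2.trans h1.symm)).symm
  · exact h.pa u hu u' hu' (h1.trans h2.symm)
  · exact h.pp u hu u' hu' (h1.trans h2.symm)

variable [Fintype V]

/-- Code of the rooted tree below `v`, truncated at height `k`. -/
noncomputable def code (ρ : V) (p : V → V) : ℕ → V → ℕ
  | 0, _ => Encodable.encode (0 : Multiset ℕ)
  | k + 1, v => Encodable.encode
      ((univ.filter (fun y => y ≠ ρ ∧ p y = v)).val.map (code ρ p k) : Multiset ℕ)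

lemma code_iso {ρ : V} {p p' : V → V} (φ : V ≃ V) (hρ : φ ρ = ρ)
    (h : ∀ v, φ (p v) = p' (φ v)) : ∀ k v, code ρ p k v = code ρ p' k (φ v) := by
  intro k
  induction k with
  | zero => intro v; rfl
  | succ k ih =>
    intro v
    simp only [code]
    congr 1
    have h1 : (univ.filter (fun y => y ≠ ρ ∧ p' y = φ v)) =
        (univ.filter (fun y => y ≠ ρ ∧ p y = v)).map φ.toEmbedding := by
      ext y
      simp only [mem_filter, mem_univ, true_and, mem_map, Equiv.coe_toEmbedding]
      constructor
      · rintro ⟨hy, hy2⟩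
        refine ⟨φ.symm y, ⟨?_, ?_⟩, by simp⟩
        · rintro e
          apply hy
          rw [← hρ, ← e, Equiv.apply_symm_apply]
        · apply φ.injective
          rw [h, Equiv.apply_symm_apply, hy2]
      · rintro ⟨x, ⟨hx, hx2⟩, rfl⟩
        refine ⟨?_, ?_⟩
        · rintro e
          apply hx
          apply φ.injective
          rw [e, hρ]
        · rw [← h, hx2]
    rw [h1, Finset.map_val, Multiset.map_map]
    apply Multiset.map_congr rfl
    intro x _
    exact ih x

/-- Data for the leaf argument. -/
structure LeafData (ρ : V) (p : V → V) (dep : V → ℕ) (a : V → V) (X : Finset V) : Prop where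
  rt : IsRT ρ p dep
  leaf : ∀ x ∈ X, ∀ y, p y ≠ x
  anc : ∀ x ∈ X, Anc p (a x) (p x)
  slots : Slots p a X

namespace LeafData

variable {ρ : V} {p : V → V} {dep : V → ℕ} {a : V → V} {X : Finset V}

lemma root_notMem (h : LeafData ρ p dep a X) : ρ ∉ X := fun hρ => h.leaf ρ hρ ρ h.rt.root

lemma eq_of_anc (h : LeafData ρ p dep a X) {x z : V} (hx : x ∈ X) (ha : Anc p x z) : z = x := by
  obtain ⟨k, hk⟩ := ha
  cases k with
  | zero => exact hk
  | succ k =>
    rw [Function.iterate_succ_apply'] at hk
    exact absurd hk (h.leaf x hx _)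

lemma not_anc_parent (h : LeafData ρ p dep a X) {x y : V} (hx : x ∈ X) : ¬ Anc p x (p y) :=
  fun ha => h.leaf x hx y (h.eq_of_anc hx ha)

lemma anc_tog (h : LeafData ρ p dep a X) {S : Finset V} (hS : S ⊆ X) (y : V) :
    Anc p (tog p a S y) (p y) := by
  unfold tog
  split_ifs with hy
  · exact h.anc y (hS hy)
  · exact anc_refl _ _

lemma tog_ne_leaf (h : LeafData ρ p dep a X) {S : Finset V} (hS : S ⊆ X) {x : V} (hx : x ∈ X)
    (y : V) : tog p a S y ≠ x := by
  intro e
  have := h.anc_tog hS y
  rw [e] at this
  exact h.not_anc_parent hx this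

lemma code_leaf (h : LeafData ρ p dep a X) {S : Finset V} (hS : S ⊆ X) {x : V} (hx : x ∈ X)
    (k : ℕ) : code ρ (tog p a S) k x = Encodable.encode (0 : Multiset ℕ) := by
  cases k with
  | zero => rfl
  | succ k =>
    simp only [code]
    have : (univ.filter (fun y => y ≠ ρ ∧ tog p a S y = x)) = ∅ := by
      rw [Finset.filter_eq_empty_iff]
      rintro y _ ⟨_, hy⟩
      exact h.tog_ne_leaf hS hx y hy
    rw [this]
    rfl

lemma locality (h : LeafData ρ p dep a X) {S S' : Finset V} (hS : S ⊆ X) (hS' : S' ⊆ X) :
    ∀ k v, (∀ x ∈ X, Anc p v (p x) → (x ∈ S ↔ x ∈ S')) →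
      code ρ (tog p a S) k v = code ρ (tog p a S') k v := by
  intro k
  induction k with
  | zero => intro v _; rfl
  | succ k ih =>
    intro v hv
    simp only [code]
    congr 1
    have h1 : (univ.filter (fun y => y ≠ ρ ∧ tog p a S y = v)) =
        (univ.filter (fun y => y ≠ ρ ∧ tog p a S' y = v)) := by
      ext y
      simp only [mem_filter, mem_univ, true_and, and_congr_right_iff]
      intro _
      by_cases hy : y ∈ X
      · by_cases ha : Anc p v (p y)
        · have := hv y hy ha
          simp only [tog, this]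
        · constructor
          · intro e
            rw [← e] at ha
            exact absurd (h.anc_tog hS y) ha
          · intro e
            rw [← e] at ha
            exact absurd (h.anc_tog hS' y) ha
      · have h2 : y ∉ S := fun hh => hy (hS hh)
        have h3 : y ∉ S' := fun hh => hy (hS' hh)
        simp [tog, h2, h3]
    rw [← h1]
    apply Multiset.map_congr rfl
    intro y hy
    apply ih
    intro x hx hax
    simp only [Finset.mem_val, mem_filter, mem_univ, true_and] at hy
    by_cases hyX : y ∈ X
    · exact absurd hax (h.not_anc_parent hyX)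
    · apply hv x hx
      have h2 : y ∉ S := fun hh => hyX (hS hh)
      have h3 : p y = v := by
        have := hy.2
        simpa [tog, h2] using this
      rw [← h3]
      exact (anc_parent p y).trans hax

end LeafData

/-- Core children. -/
def coreCh (ρ : V) (p : V → V) (X : Finset V) (v : V) : Finset V :=
  univ.filter (fun y => y ≠ ρ ∧ p y = v ∧ y ∉ X)

/-- Core multisets. -/
noncomputable def coreSet (ρ : V) (p a : V → V) (X : Finset V) (k : ℕ) (J : Finset V) :
    Finset (Multiset ℕ) :=
  X.powerset.image (fun S => J.val.map (code ρ (tog p a S) k))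

/-- Set of codes. -/
noncomputable def codeSet (ρ : V) (p a : V → V) (X : Finset V) (k : ℕ) (v : V) : Finset ℕ :=
  X.powerset.image (fun S => code ρ (tog p a S) k v)

/-- Full child multisets. -/
noncomputable def fullSet (ρ : V) (p a : V → V) (X : Finset V) (k : ℕ) (v : V) :
    Finset (Multiset ℕ) :=
  X.powerset.image (fun S => (univ.filter (fun y => y ≠ ρ ∧ tog p a S y = v)).val.map
    (code ρ (tog p a S) k))

lemma card_codeSet_succ (ρ : V) (p a : V → V) (X : Finset V) (k : ℕ) (v : V) :
    (codeSet ρ p a X (k + 1) v).card = (fullSet ρ p a X k v).card := by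
  have : codeSet ρ p a X (k + 1) v = (fullSet ρ p a X k v).image Encodable.encode := by
    unfold codeSet fullSet
    rw [Finset.image_image]
    rfl
  rw [this, Finset.card_image_of_injective _ Encodable.encode_injective]

lemma codeSet_nonempty (ρ : V) (p a : V → V) (X : Finset V) (k : ℕ) (v : V) :
    (codeSet ρ p a X k v).Nonempty :=
  ⟨_, Finset.mem_image_of_mem _ (Finset.empty_mem_powerset X)⟩

lemma coreSet_nonempty (ρ : V) (p a : V → V) (X : Finset V) (k : ℕ) (J : Finset V) :
    (coreSet ρ p a X k J).Nonempty :=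
  ⟨_, Finset.mem_image_of_mem _ (Finset.empty_mem_powerset X)⟩

lemma card_of_mem_coreSet {ρ : V} {p a : V → V} {X : Finset V} {k : ℕ} {J : Finset V}
    {m : Multiset ℕ} (hm : m ∈ coreSet ρ p a X k J) : m.card = J.card := by
  unfold coreSet at hm
  rw [Finset.mem_image] at hm
  obtain ⟨S, _, rfl⟩ := hm
  rw [Multiset.card_map]
  rfl

namespace LeafData

variable {ρ : V} {p : V → V} {dep : V → ℕ} {a : V → V} {X : Finset V}

lemma merge (h : LeafData ρ p dep a X) (k : ℕ) (v : V) {J : Finset V} {c : V} (hc : c ∉ J)
    (hcJ : insert c J ⊆ coreCh ρ p X v) :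
    mrg (coreSet ρ p a X k J) (codeSet ρ p a X k c) ⊆ coreSet ρ p a X k (insert c J) := by
  classical
  intro t ht
  rw [mem_mrg] at ht
  obtain ⟨m, hm, e, he, rfl⟩ := ht
  unfold coreSet at hm
  unfold codeSet at he
  rw [Finset.mem_image] at hm he
  obtain ⟨S1, hS1, rfl⟩ := hm
  obtain ⟨S2, hS2, rfl⟩ := he
  rw [Finset.mem_powerset] at hS1 hS2
  unfold coreSet
  rw [Finset.mem_image]
  have hX : X.filter (fun x => if Anc p c (p x) then x ∈ S2 else x ∈ S1) ⊆ X :=
    Finset.filter_subset _ _
  refine ⟨X.filter (fun x => if Anc p c (p x) then x ∈ S2 else x ∈ S1), ?_, ?_⟩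
  · rw [Finset.mem_powerset]
    exact hX
  · rw [Finset.insert_val_of_notMem hc, Multiset.map_cons]
    congr 1
    · apply h.locality hX hS2
      intro x hx hax
      simp [hx, hax]
    · apply Multiset.map_congr rfl
      intro c' hc'
      apply h.locality hX hS1
      intro x hx hax
      have h1 : ¬ Anc p c (p x) := by
        intro hac
        have h2 := hcJ (Finset.mem_insert_self c J)
        have h3 := hcJ (Finset.mem_insert_of_mem hc')
        simp only [coreCh, mem_filter, mem_univ, true_and] at h2 h3
        have h4 := h.rt.dep_p c h2.1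
        have h5 := h.rt.dep_p c' h3.1
        rw [h2.2.1] at h4
        rw [h3.2.1] at h5
        have h6 : c = c' := h.rt.anc_eq hac hax (by omega)
        rw [h6] at hc
        exact hc hc'
      simp [hx, h1]

lemma card_core_add (h : LeafData ρ p dep a X) (k : ℕ) (v : V) (J : Finset V)
    (hJ : J ⊆ coreCh ρ p X v) :
    1 + ∑ c ∈ J, (codeSet ρ p a X k c).card ≤ (coreSet ρ p a X k J).card + J.card := by
  induction J using Finset.induction_on with
  | empty =>
    have := (coreSet_nonempty ρ p a X k ∅).card_pos
    simp only [Finset.sum_empty, Finset.card_empty]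
    omega
  | insert c J hc ih =>
    have h1 := ih ((Finset.subset_insert c J).trans hJ)
    have h2 := Finset.card_le_card (h.merge k v hc hJ)
    have h3 := card_mrg_add _ _ (coreSet_nonempty ρ p a X k J) (codeSet_nonempty ρ p a X k c)
    rw [Finset.sum_insert hc, Finset.card_insert_of_notMem hc]
    omega

lemma card_core_single (k : ℕ) (c : V) :
    (codeSet ρ p a X k c).card = (coreSet ρ p a X k {c}).card := by
  have : coreSet ρ p a X k {c} = (codeSet ρ p a X k c).image (fun e => {e}) := by
    unfold codeSet coreSet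
    rw [Finset.image_image]
    rfl
  rw [this, Finset.card_image_of_injective]
  intro e f hef
  exact Multiset.singleton_inj.mp hef

lemma card_core_mul (h : LeafData ρ p dep a X) (k : ℕ) (v : V) (D : ℕ)
    (hD : (coreCh ρ p X v).card ≤ D) (c0 : V) (hc0 : c0 ∈ coreCh ρ p X v) (J : Finset V)
    (hJ : J ⊆ (coreCh ρ p X v).erase c0) :
    ((codeSet ρ p a X k c0).card : ℝ) *
      ∏ c ∈ J, (1 + (((codeSet ρ p a X k c).card : ℝ) - 1) / D) ≤
      (coreSet ρ p a X k (insert c0 J)).card := by
  induction J using Finset.induction_on with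
  | empty =>
    rw [Finset.prod_empty, mul_one, card_core_single]
    simp
  | insert c J hc ih =>
    have h1 := ih ((Finset.subset_insert c J).trans hJ)
    have hc0J : c0 ∉ insert c J := fun hh => (Finset.mem_erase.mp (hJ hh)).1 rfl
    have hcc0 : c ∉ insert c0 J := by
      rw [Finset.mem_insert]
      rintro (rfl | hh)
      · exact hc0J (Finset.mem_insert_self _ _)
      · exact hc hh
    have hsub : insert c (insert c0 J) ⊆ coreCh ρ p X v := by
      rw [Finset.insert_comm]
      intro x hx
      rw [Finset.mem_insert] at hx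
      rcases hx with rfl | hx
      · exact hc0
      · exact (Finset.mem_erase.mp (hJ hx)).2
    have h2 := Finset.card_le_card (h.merge k v hcc0 hsub)
    have h3 := card_mrg_mul (coreSet ρ p a X k (insert c0 J)) (codeSet ρ p a X k c)
      (insert c0 J).card (codeSet_nonempty ρ p a X k c) (fun m hm => card_of_mem_coreSet hm)
    have h4 : (insert c0 J).card + 1 ≤ D := by
      have := Finset.card_le_card hsub
      rw [Finset.card_insert_of_notMem hcc0] at this
      omega
    rw [Finset.prod_insert hc, Finset.insert_comm]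
    set i : ℝ := ((insert c0 J).card : ℝ) with hi
    set b : ℝ := ((codeSet ρ p a X k c).card : ℝ) with hb
    have h5 : i + 1 ≤ D := by
      rw [hi]; exact_mod_cast h4
    have hi0 : 0 ≤ i := by rw [hi]; positivity
    have hb1 : 1 ≤ b := by
      rw [hb]; exact_mod_cast (codeSet_nonempty ρ p a X k c).card_pos
    have h6 : 1 + (b - 1) / D ≤ (b + i) / (i + 1) := by
      have : (b + i) / (i + 1) = 1 + (b - 1) / (i + 1) := by
        field_simp
        ring
      rw [this]
      have : (b - 1) / D ≤ (b - 1) / (i + 1) :=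
        div_le_div_of_nonneg_left (by linarith) (by linarith) h5
      linarith
    have h7 : 0 ≤ 1 + (b - 1) / D := by
      have : 0 ≤ (b - 1) / D := div_nonneg (by linarith) (by positivity)
      linarith
    calc ((codeSet ρ p a X k c0).card : ℝ) *
        ((1 + (b - 1) / D) * ∏ c ∈ J, (1 + (((codeSet ρ p a X k c).card : ℝ) - 1) / D))
        = (((codeSet ρ p a X k c0).card : ℝ) *
          ∏ c ∈ J, (1 + (((codeSet ρ p a X k c).card : ℝ) - 1) / D)) * (1 + (b - 1) / D) := by ring
      _ ≤ ((coreSet ρ p a X k (insert c0 J)).card : ℝ) * (1 + (b - 1) / D) :=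
          mul_le_mul_of_nonneg_right h1 h7
      _ ≤ ((coreSet ρ p a X k (insert c0 J)).card : ℝ) * ((b + i) / (i + 1)) :=
          mul_le_mul_of_nonneg_left h6 (by positivity)
      _ ≤ ((mrg (coreSet ρ p a X k (insert c0 J)) (codeSet ρ p a X k c)).card : ℝ) := h3
      _ ≤ _ := by exact_mod_cast h2

/-- decomposition of the children -/
lemma children_eq (h : LeafData ρ p dep a X) {S : Finset V} (hS : S ⊆ X) (v : V) :
    (univ.filter (fun y => y ≠ ρ ∧ tog p a S y = v)) =
      coreCh ρ p X v ∪ X.filter (fun x => tog p a S x = v) := by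
  ext y
  simp only [coreCh, mem_filter, mem_univ, true_and, mem_union]
  by_cases hy : y ∈ X
  · have : y ≠ ρ := fun e => h.root_notMem (e ▸ hy)
    simp [hy, this]
  · have h2 : y ∉ S := fun hh => hy (hS hh)
    simp [hy, tog, h2]

lemma full_eq (h : LeafData ρ p dep a X) {S : Finset V} (hS : S ⊆ X) (k : ℕ) (v : V) :
    (univ.filter (fun y => y ≠ ρ ∧ tog p a S y = v)).val.map (code ρ (tog p a S) k) =
      (coreCh ρ p X v).val.map (code ρ (tog p a S) k) +
      Multiset.replicate (X.filter (fun x => tog p a S x = v)).card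
        (Encodable.encode (0 : Multiset ℕ)) := by
  rw [h.children_eq hS v]
  have hdisj : Disjoint (coreCh ρ p X v) (X.filter (fun x => tog p a S x = v)) := by
    rw [Finset.disjoint_left]
    intro y hy hy'
    simp only [coreCh, mem_filter, mem_univ, true_and] at hy hy'
    exact hy.2.2 hy'.1
  rw [← Finset.disjUnion_eq_union _ _ hdisj, Finset.disjUnion_val, Multiset.map_add]
  congr 1
  rw [Multiset.eq_replicate]
  constructor
  · rw [Multiset.card_map]; rfl
  · intro b hb
    rw [Multiset.mem_map] at hb
    obtain ⟨x, hx, rfl⟩ := hb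
    have hx' : x ∈ X.filter (fun x => tog p a S x = v) := hx
    exact h.code_leaf hS (Finset.mem_filter.mp hx').1 k

lemma pend_le_one (h : LeafData ρ p dep a X) (S : Finset V) (v : V) :
    (X.filter (fun x => tog p a S x = v)).card ≤ 1 := by
  rw [Finset.card_le_one]
  intro x hx y hy
  rw [mem_filter] at hx hy
  exact h.slots.eq_of_tog hx.1 hy.1 hx.2 hy.2

lemma core_le_full (h : LeafData ρ p dep a X) (k : ℕ) (v : V) :
    (coreSet ρ p a X k (coreCh ρ p X v)).card ≤ (fullSet ρ p a X k v).card := by
  set lc := Encodable.encode (0 : Multiset ℕ) with hlc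
  let g : Multiset ℕ → Multiset ℕ := fun M =>
    if M.card = (coreCh ρ p X v).card then M else M.erase lc
  have h1 : coreSet ρ p a X k (coreCh ρ p X v) = (fullSet ρ p a X k v).image g := by
    unfold coreSet fullSet
    rw [Finset.image_image]
    apply Finset.image_congr
    intro S hS
    rw [Finset.mem_coe, Finset.mem_powerset] at hS
    simp only [Function.comp]
    rw [h.full_eq hS k v]
    have h2 := h.pend_le_one S v
    have h3 : ((coreCh ρ p X v).val.map (code ρ (tog p a S) k)).card = (coreCh ρ p X v).card := by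
      rw [Multiset.card_map]; rfl
    rcases Nat.le_one_iff_eq_zero_or_eq_one.mp h2 with h4 | h4
    · rw [h4, Multiset.replicate_zero, add_zero]
      simp only [g, h3, if_true]
    · rw [h4, Multiset.replicate_one]
      simp only [g, Multiset.card_add, h3, Multiset.card_singleton]
      rw [if_neg (by omega), ← hlc, Multiset.add_comm, Multiset.singleton_add,
        Multiset.erase_cons_head]
  rw [h1]
  exact Finset.card_image_le

lemma two_core_le_full (h : LeafData ρ p dep a X) (k : ℕ) (v : V) (x0 : V) (hx0 : x0 ∈ X)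
    (hpx0 : p x0 = v) :
    2 * (coreSet ρ p a X k (coreCh ρ p X v)).card ≤ (fullSet ρ p a X k v).card := by
  set lc := Encodable.encode (0 : Multiset ℕ) with hlc
  have hcore : ∀ S ⊆ X, ∀ S' ⊆ X, (∀ x ∈ X, x ≠ x0 → (x ∈ S ↔ x ∈ S')) →
      (coreCh ρ p X v).val.map (code ρ (tog p a S) k) =
      (coreCh ρ p X v).val.map (code ρ (tog p a S') k) := by
    intro S hS S' hS' hSS
    apply Multiset.map_congr rfl
    intro c hc
    apply h.locality hS hS'
    intro x hx hax
    apply hSS x hx
    rintro rfl
    have hc' : c ∈ coreCh ρ p X v := hc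
    simp only [coreCh, mem_filter, mem_univ, true_and] at hc'
    have h1 := h.rt.dep_le hax
    have h2 := h.rt.dep_p c hc'.1
    rw [hc'.2.1] at h2
    rw [hpx0] at h1
    omega
  have hsub : coreSet ρ p a X k (coreCh ρ p X v) ∪
      (coreSet ρ p a X k (coreCh ρ p X v)).image (fun m => lc ::ₘ m) ⊆ fullSet ρ p a X k v := by
    intro t ht
    rw [Finset.mem_union] at ht
    rcases ht with ht | ht
    · unfold coreSet at ht
      rw [Finset.mem_image] at ht
      obtain ⟨S, hS, rfl⟩ := ht
      rw [Finset.mem_powerset] at hS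
      unfold fullSet
      rw [Finset.mem_image]
      have hS' : insert x0 S ⊆ X := by
        intro y hy
        rw [Finset.mem_insert] at hy
        rcases hy with rfl | hy
        · exact hx0
        · exact hS hy
      refine ⟨insert x0 S, Finset.mem_powerset.mpr hS', ?_⟩
      rw [h.full_eq hS' k v]
      have h1 : X.filter (fun x => tog p a (insert x0 S) x = v) = ∅ := by
        rw [Finset.filter_eq_empty_iff]
        intro x hx hxv
        have h2 : tog p a ∅ x0 = v := by simp [tog, hpx0]
        have h3 := h.slots.eq_of_tog hx hx0 hxv h2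
        subst h3
        simp only [tog, Finset.mem_insert_self, if_true] at hxv
        exact h.slots.ne x hx0 (by rw [hxv, hpx0])
      rw [h1, Finset.card_empty, Multiset.replicate_zero, add_zero]
      apply hcore _ hS' _ hS
      intro x hx hne
      simp [hne]
    · rw [Finset.mem_image] at ht
      obtain ⟨m, hm, rfl⟩ := ht
      unfold coreSet at hm
      rw [Finset.mem_image] at hm
      obtain ⟨S, hS, rfl⟩ := hm
      rw [Finset.mem_powerset] at hS
      unfold fullSet
      rw [Finset.mem_image]
      have hS' : S.erase x0 ⊆ X := (Finset.erase_subset _ _).trans hS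
      refine ⟨S.erase x0, Finset.mem_powerset.mpr hS', ?_⟩
      rw [h.full_eq hS' k v]
      have h1 : X.filter (fun x => tog p a (S.erase x0) x = v) = {x0} := by
        ext x
        rw [mem_filter, mem_singleton]
        constructor
        · rintro ⟨hx, hxv⟩
          have h2 : tog p a ∅ x0 = v := by simp [tog, hpx0]
          exact h.slots.eq_of_tog hx hx0 hxv h2
        · rintro rfl
          exact ⟨hx0, by simp [tog, hpx0]⟩
      rw [h1, Finset.card_singleton, Multiset.replicate_one, ← hlc, Multiset.add_comm,
        Multiset.singleton_add]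
      congr 1
      apply hcore _ hS' _ hS
      intro x hx hne
      simp [hne]
  have hdisj : Disjoint (coreSet ρ p a X k (coreCh ρ p X v))
      ((coreSet ρ p a X k (coreCh ρ p X v)).image (fun m => lc ::ₘ m)) := by
    rw [Finset.disjoint_left]
    intro m hm hm'
    rw [Finset.mem_image] at hm'
    obtain ⟨m', hm', rfl⟩ := hm'
    have h1 := card_of_mem_coreSet hm
    have h2 := card_of_mem_coreSet hm'
    rw [Multiset.card_cons] at h1
    omega
  have h1 := Finset.card_le_card hsub
  rw [Finset.card_union_of_disjoint hdisj, Finset.card_image_of_injective] at h1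
  · omega
  · intro m m' hmm
    exact (Multiset.cons_inj_right _).mp hmm

end LeafData

end Pool.Agent.H20
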