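import Pool.Agent.H20.Codes

/-! Multiplicity bound for the toggled family when there are few leaves. -/

namespace Pool.Agent.H20

open Finset

set_option linter.unusedSectionVars false

variable {V : Type*} [DecidableEq V] [Fintype V]

/-- fibre of a parent function -/
def fib (p : V → V) (v : V) : Finset V := univ.filter (fun x => p x = v)

lemma mem_fib {p : V → V} {v x : V} : x ∈ fib p v ↔ p x = v := by simp [fib]

/-- rank in a finite set -/
noncomputable def rk (A : Finset V) (y : V) : ℕ :=
  (A.filter (fun z => Fintype.equivFin V z < Fintype.equivFin V y)).card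

lemma rk_lt {A : Finset V} {y : V} (hy : y ∈ A) : rk A y < A.card := by
  unfold rk
  apply Finset.card_lt_card
  rw [Finset.ssubset_iff_of_subset (Finset.filter_subset _ _)]
  exact ⟨y, hy, by simp⟩

lemma rk_inj {A : Finset V} {y y' : V} (hy : y ∈ A) (hy' : y' ∈ A) (h : rk A y = rk A y') :
    y = y' := by
  by_contra hne
  have key : ∀ u v : V, u ∈ A → Fintype.equivFin V u < Fintype.equivFin V v → rk A u < rk A v := by
    intro u v hu huv
    unfold rk
    apply Finset.card_lt_card
    rw [Finset.ssubset_iff_of_subset]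
    · exact ⟨u, by simp [hu, huv], by simp⟩
    · intro z hz
      rw [mem_filter] at hz ⊢
      exact ⟨hz.1, hz.2.trans huv⟩
  rcases lt_trichotomy (Fintype.equivFin V y) (Fintype.equivFin V y') with h1 | h1 | h1
  · have := key y y' hy h1; omega
  · exact hne ((Fintype.equivFin V).injective h1)
  · have := key y' y hy' h1; omega

/-- two parent functions are rooted isomorphic -/
def RIso (ρ : V) (p p' : V → V) : Prop := ∃ φ : V ≃ V, φ ρ = ρ ∧ ∀ v, φ (p v) = p' (φ v)

lemma card_fib_iso {p p' : V → V} (φ : V ≃ V) (h : ∀ v, φ (p v) = p' (φ v)) (w : V) :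
    (fib p' (φ w)).card = (fib p w).card := by
  symm
  apply Finset.card_bij (fun x _ => φ x)
  · intro x hx
    rw [mem_fib] at hx ⊢
    rw [← h, hx]
  · intro x _ y _ hxy
    exact φ.injective hxy
  · intro y hy
    rw [mem_fib] at hy
    refine ⟨φ.symm y, ?_, by simp⟩
    rw [mem_fib]
    apply φ.injective
    rw [h, Equiv.apply_symm_apply, hy]

lemma fib_tog_eq {p a : V → V} {U S S' : Finset V} (hU : Slots p a U) (hS : S ⊆ U) (hS' : S' ⊆ U)
    (w : V) (hc : (fib (tog p a S) w).card = (fib (tog p a S') w).card) :
    fib (tog p a S) w = fib (tog p a S') w := by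
  by_contra hne
  have key : ∀ {T T' : Finset V}, T ⊆ U → T' ⊆ U → ∀ x, x ∈ fib (tog p a T) w →
      x ∉ fib (tog p a T') w → x ∈ U := by
    intro T T' hT hT' x hx hx'
    rw [mem_fib] at hx hx'
    by_contra hxU
    have h1 : x ∉ T := fun hh => hxU (hT hh)
    have h2 : x ∉ T' := fun hh => hxU (hT' hh)
    simp only [tog, h1, h2, if_false] at hx hx'
    exact hx' hx
  have h1 : ¬ fib (tog p a S) w ⊆ fib (tog p a S') w := fun hsub =>
    hne (Finset.eq_of_subset_of_card_le hsub hc.ge)
  have h2 : ¬ fib (tog p a S') w ⊆ fib (tog p a S) w := fun hsub =>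
    hne (Finset.eq_of_subset_of_card_le hsub hc.le).symm
  rw [Finset.not_subset] at h1 h2
  obtain ⟨x, hx, hx'⟩ := h1
  obtain ⟨y, hy, hy'⟩ := h2
  have hxU := key hS hS' x hx hx'
  have hyU := key hS' hS y hy hy'
  have hxy : x = y := hU.eq_of_tog hxU hyU (mem_fib.mp hx) (mem_fib.mp hy)
  rw [hxy] at hx'
  exact hx' hy

theorem mult_le {ρ : V} {p a : V → V} {U S : Finset V} {r : V → ℕ} (hU : Slots p a U) (hS : S ⊆ U)
    (hpar : IsPar ρ (tog p a S) r) (F : Finset (Finset V)) (hF : ∀ S' ∈ F, S' ⊆ U)
    (hiso : ∀ S' ∈ F, RIso ρ (tog p a S) (tog p a S')) :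
    F.card ≤ ∏ x : V, (fib (tog p a S) (tog p a S x)).card := by
  classical
  choose! φ hφ using hiso
  let cd : Finset V → V → ℕ := fun S' x =>
    rk (fib (tog p a S') (φ S' (tog p a S x))) (φ S' x)
  have hmem : ∀ S' ∈ F, ∀ x, φ S' x ∈ fib (tog p a S') (φ S' (tog p a S x)) := by
    intro S' hS' x
    rw [mem_fib]
    exact ((hφ S' hS').2 x).symm
  have h1 : ∀ S' ∈ F, cd S' ∈ Fintype.piFinset
      (fun x => Finset.range (fib (tog p a S) (tog p a S x)).card) := by
    intro S' hS'
    rw [Fintype.mem_piFinset]
    intro x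
    rw [Finset.mem_range, ← card_fib_iso (φ S') (hφ S' hS').2]
    exact rk_lt (hmem S' hS' x)
  have h2 : ∀ S' ∈ F, ∀ S'' ∈ F, cd S' = cd S'' → S' = S'' := by
    intro S' hS' S'' hS'' hcd
    have hfib : ∀ w, φ S' w = φ S'' w →
        fib (tog p a S') (φ S' w) = fib (tog p a S'') (φ S'' w) := by
      intro w hw
      rw [← hw]
      apply fib_tog_eq hU (hF S' hS') (hF S'' hS'')
      rw [card_fib_iso (φ S') (hφ S' hS').2, hw, card_fib_iso (φ S'') (hφ S'' hS'').2]
    have hφeq : ∀ n x, r x = n → φ S' x = φ S'' x := by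
      intro n
      induction n using Nat.strong_induction_on with
      | _ n ih =>
        intro x hx
        by_cases hxr : x = ρ
        · rw [hxr, (hφ S' hS').1, (hφ S'' hS'').1]
        · have hlt := hpar.lt x hxr
          have h3 := ih _ (hx ▸ hlt) (tog p a S x) rfl
          have h4 := hfib _ h3
          have h5 := congrFun hcd x
          simp only [cd] at h5
          have h6 := hmem S' hS' x
          have h7 := hmem S'' hS'' x
          rw [← h4] at h5 h7
          exact rk_inj h6 h7 h5
    have hφeq' : ∀ x, φ S' x = φ S'' x := fun x => hφeq _ x rfl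
    have htog : ∀ x, tog p a S' x = tog p a S'' x := by
      intro x
      obtain ⟨w, hw⟩ := (φ S').surjective (tog p a S' x)
      have h3 := hfib w (hφeq' w)
      have h4 : x ∈ fib (tog p a S') (φ S' w) := by rw [mem_fib, hw]
      rw [h3, mem_fib, ← hφeq', hw] at h4
      exact h4.symm
    ext x
    have h3 := htog x
    constructor
    · intro hx
      by_contra hx'
      simp only [tog, hx, hx', if_true, if_false] at h3
      exact hU.ne x (hF S' hS' hx) h3
    · intro hx
      by_contra hx'
      simp only [tog, hx, hx', if_true, if_false] at h3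
      exact hU.ne x (hF S'' hS'' hx) h3.symm
  have h3 : F.card ≤ (Fintype.piFinset
      (fun x => Finset.range (fib (tog p a S) (tog p a S x)).card)).card :=
    Finset.card_le_card_of_injOn cd h1 h2
  rw [Fintype.card_piFinset] at h3
  simpa using h3

/-- the number of vertices with at least one sibling is at most twice the number of leaves -/
lemma multi_le (p : V → V) :
    (univ.filter (fun x => 2 ≤ (fib p (p x)).card)).card ≤
      2 * (univ.filter (fun v => (fib p v).card = 0)).card := by
  classical
  have h1 : (univ.filter (fun x => 2 ≤ (fib p (p x)).card)).card =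
      ∑ v : V, (if 2 ≤ (fib p v).card then (fib p v).card else 0) := by
    rw [Finset.card_eq_sum_card_fiberwise (f := p) (t := univ) (fun _ _ => Finset.mem_coe.mpr (Finset.mem_univ _))]
    apply Finset.sum_congr rfl
    intro v _
    split_ifs with hv
    · congr 1
      ext x
      simp only [mem_filter, mem_univ, true_and, mem_fib]
      constructor
      · exact fun hh => hh.2
      · intro hh
        exact ⟨by rw [hh]; exact hv, hh⟩
    · rw [Finset.card_eq_zero, Finset.filter_eq_empty_iff]
      intro x hx hxv
      rw [mem_filter] at hx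
      rw [hxv] at hx
      exact hv hx.2
  have h2 : (Fintype.card V : ℤ) = ∑ v : V, ((fib p v).card : ℤ) := by
    have : Fintype.card V = ∑ v : V, (fib p v).card := by
      rw [← Finset.card_univ,
        Finset.card_eq_sum_card_fiberwise (f := p) (t := univ) (fun _ _ => Finset.mem_coe.mpr (Finset.mem_univ _))]
      rfl
    exact_mod_cast this
  have h3 : (Fintype.card V : ℤ) = ∑ v : V, (1 : ℤ) := by simp
  have h4 : ((univ.filter (fun v => (fib p v).card = 0)).card : ℤ) =
      ∑ v : V, (if (fib p v).card = 0 then (1 : ℤ) else 0) := by simp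
  have h5 : ∑ v : V, (if 2 ≤ (fib p v).card then ((fib p v).card : ℤ) else 0) ≤
      ∑ v : V, (2 * ((fib p v).card : ℤ) - 2 * 1 + 2 * (if (fib p v).card = 0 then (1 : ℤ) else 0)) := by
    apply Finset.sum_le_sum
    intro v _
    split_ifs <;> omega
  rw [Finset.sum_add_distrib, Finset.sum_sub_distrib, ← Finset.mul_sum, ← Finset.mul_sum,
    ← Finset.mul_sum, ← h2, ← h3, ← h4] at h5
  have h6 : ((univ.filter (fun x => 2 ≤ (fib p (p x)).card)).card : ℤ) =
      ∑ v : V, (if 2 ≤ (fib p v).card then ((fib p v).card : ℤ) else 0) := by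
    rw [h1]
    push_cast
    rfl
  rw [← h6] at h5
  have h7 : ((univ.filter (fun x => 2 ≤ (fib p (p x)).card)).card : ℤ) ≤
      2 * ((univ.filter (fun v => (fib p v).card = 0)).card : ℤ) := by linarith
  exact_mod_cast h7

lemma prod_fib_le (p : V → V) (D : ℕ) (hD : 1 ≤ D) (hdeg : ∀ v, (fib p v).card ≤ D) :
    ∏ x : V, (fib p (p x)).card ≤ D ^ (2 * (univ.filter (fun v => (fib p v).card = 0)).card) := by
  classical
  calc ∏ x : V, (fib p (p x)).card
      ≤ ∏ x : V, (if 2 ≤ (fib p (p x)).card then D else 1) := by
        apply Finset.prod_le_prod'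
        intro x _
        split_ifs with hx
        · exact hdeg _
        · omega
    _ = D ^ (univ.filter (fun x => 2 ≤ (fib p (p x)).card)).card := by
        rw [Finset.prod_ite, Finset.prod_const, Finset.prod_const_one, mul_one]
    _ ≤ _ := Nat.pow_le_pow_right hD (multi_le p)

lemma leaves_tog_le (p a : V → V) (S : Finset V) :
    (univ.filter (fun v => (fib (tog p a S) v).card = 0)).card ≤
      (univ.filter (fun v => (fib p v).card = 0)).card + S.card := by
  classical
  calc _ ≤ ((univ.filter (fun v => (fib p v).card = 0)) ∪ S.image p).card := by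
        apply Finset.card_le_card
        intro v hv
        rw [mem_filter] at hv
        rw [mem_union, mem_filter, mem_image]
        by_cases h0 : (fib p v).card = 0
        · exact Or.inl ⟨Finset.mem_univ _, h0⟩
        · right
          obtain ⟨x, hx⟩ := Finset.card_pos.mp (Nat.pos_of_ne_zero h0)
          rw [mem_fib] at hx
          refine ⟨x, ?_, hx⟩
          by_contra hxS
          have h1 : x ∈ fib (tog p a S) v := by
            rw [mem_fib]
            simp [tog, hxS, hx]
          have h2 := Finset.card_pos.mpr ⟨x, h1⟩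
          omega
    _ ≤ _ := (Finset.card_union_le _ _).trans (Nat.add_le_add_left Finset.card_image_le _)

end Pool.Agent.H20
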