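import Pool.Agent.H20.ParentFn

/-! Existence of a normal (depth first search) spanning tree. -/

namespace Pool.Agent.H20

open Finset

variable {V : Type*}

/-- Rooted spanning tree of `G` given by a parent function. -/
structure IsRST (G : SimpleGraph V) (ρ : V) (p : V → V) (dep : V → ℕ) : Prop extends
    IsRT ρ p dep where
  adj : ∀ v, v ≠ ρ → G.Adj v (p v)

lemma exists_bfs (G : SimpleGraph V) (hG : G.Connected) (ρ : V) :
    ∃ (p : V → V) (dep : V → ℕ), IsRST G ρ p dep := by
  classical
  have key : ∀ v, v ≠ ρ → ∃ u, G.Adj v u ∧ G.dist v ρ = G.dist u ρ + 1 := by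
    intro v hv
    obtain ⟨w, hw⟩ := hG.exists_walk_length_eq_dist v ρ
    cases w with
    | nil => exact absurd rfl hv
    | @cons _ u _ h w' =>
      refine ⟨u, h, ?_⟩
      rw [SimpleGraph.Walk.length_cons] at hw
      have h1 : G.dist u ρ ≤ w'.length := SimpleGraph.dist_le w'
      have h2 : G.dist v ρ ≤ G.dist v u + G.dist u ρ := hG.dist_triangle
      have h3 : G.dist v u = 1 := SimpleGraph.dist_eq_one_iff_adj.mpr h
      omega
  choose! f hf using key
  refine ⟨fun v => if v = ρ then ρ else f v, fun v => G.dist v ρ, ⟨⟨?_, ?_, ?_⟩, ?_⟩⟩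
  · simp
  · simp
  · intro v hv
    simp only [hv, if_false]
    exact (hf v hv).2
  · intro v hv
    simp only [hv, if_false]
    exact (hf v hv).1

lemma IsRT.dep_lt_card [Fintype V] {ρ : V} {p : V → V} {dep : V → ℕ} (h : IsRT ρ p dep) (v : V) :
    dep v < Fintype.card V := by
  classical
  have h1 : Set.InjOn (fun k => p^[k] v) (Finset.range (dep v + 1)) := by
    intro k hk l hl hkl
    have := congrArg dep hkl
    simp only [h.dep_iterate] at this
    simp only [coe_range, Set.mem_Iio] at hk hl
    omega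
  have h2 := Finset.card_image_of_injOn h1
  rw [Finset.card_range] at h2
  have h3 := Finset.card_le_univ ((Finset.range (dep v + 1)).image (fun k => p^[k] v))
  omega

/-- Re-parenting `v` under `u`. -/
lemma reparent [DecidableEq V] {G : SimpleGraph V} {ρ : V} {p : V → V} {dep : V → ℕ}
    (h : IsRST G ρ p dep)
    {u v : V} (huv : G.Adj u v) (hv : ¬ Anc p v u) (hv' : v ≠ ρ) (hd : dep v ≤ dep u) :
    ∃ (p' : V → V) (dep' : V → ℕ), IsRST G ρ p' dep' ∧ (∀ w, dep w ≤ dep' w) ∧
      dep v < dep' v := by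
  classical
  refine ⟨Function.update p v u, fun w => dep w + (if Anc p v w then dep u + 1 - dep v else 0),
    ⟨⟨?_, ?_, ?_⟩, ?_⟩, ?_, ?_⟩
  · rw [Function.update_of_ne hv'.symm]
    exact h.root
  · have : ¬ Anc p v ρ := by
      rintro ⟨k, hk⟩
      rw [h.toIsRT.iterate_root] at hk
      exact hv' hk.symm
    simp [this, h.dep_root]
  · intro w hw
    by_cases hwv : w = v
    · subst hwv
      rw [Function.update_self]
      simp only [anc_refl, if_true, hv, if_false]
      omega
    · rw [Function.update_of_ne hwv]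
      have h1 := h.dep_p w hw
      have h2 : Anc p v w ↔ Anc p v (p w) :=
        ⟨fun hh => hh.parent_of_ne (Ne.symm hwv), anc_of_anc_parent⟩
      simp only [h2]
      split_ifs <;> omega
  · intro w hw
    by_cases hwv : w = v
    · subst hwv
      rw [Function.update_self]
      exact huv.symm
    · rw [Function.update_of_ne hwv]
      exact h.adj w hw
  · intro w
    simp
  · simp only [anc_refl, if_true]
    omega

theorem exists_normal [Fintype V] (G : SimpleGraph V) (hG : G.Connected) (ρ : V) :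
    ∃ (p : V → V) (dep : V → ℕ), IsRST G ρ p dep ∧
      (∀ u v, G.Adj u v → Anc p u v ∨ Anc p v u) := by
  classical
  let P : ℕ → Prop := fun m => ∃ (p : V → V) (dep : V → ℕ), IsRST G ρ p dep ∧ ∑ v, dep v = m
  set B := Fintype.card V * Fintype.card V with hB
  have hbound : ∀ m, P m → m ≤ B := by
    rintro m ⟨p, dep, h, rfl⟩
    calc ∑ v, dep v ≤ ∑ v : V, Fintype.card V :=
          Finset.sum_le_sum (fun v _ => (h.toIsRT.dep_lt_card v).le)
      _ = B := by simp [hB]
  obtain ⟨p0, dep0, h0⟩ := exists_bfs G hG ρ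
  have hP0 : P (∑ v, dep0 v) := ⟨p0, dep0, h0, rfl⟩
  have hmax : P (Nat.findGreatest P B) := Nat.findGreatest_spec (hbound _ hP0) hP0
  obtain ⟨p, dep, h, hsum⟩ := hmax
  have key : ∀ u v, G.Adj u v → dep v ≤ dep u → Anc p v u := by
    intro u v huv hd
    by_contra hv
    have hv' : v ≠ ρ := by
      rintro rfl
      exact hv (h.toIsRT.anc_root u)
    obtain ⟨p', dep', h', hle, hlt⟩ := reparent h huv hv hv' hd
    have h1 : ∑ w, dep w < ∑ w, dep' w :=
      Finset.sum_lt_sum (fun w _ => hle w) ⟨v, Finset.mem_univ _, hlt⟩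
    have h2 : P (∑ w, dep' w) := ⟨p', dep', h', rfl⟩
    have h3 := Nat.le_findGreatest (hbound _ h2) h2
    omega
  refine ⟨p, dep, h, ?_⟩
  intro u v huv
  rcases Nat.le_total (dep v) (dep u) with hd | hd
  · exact Or.inr (key u v huv hd)
  · exact Or.inl (key v u huv.symm hd)

end Pool.Agent.H20
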