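import Mathlib

/-! Parent functions, the trees they define, and rooted isomorphisms. -/

namespace Pool.Agent.H20

open Finset

variable {V : Type*}

/-- The graph joining each vertex to its parent. -/
def pGraph (p : V → V) : SimpleGraph V := SimpleGraph.fromRel (fun a b => p a = b)

lemma pGraph_adj {p : V → V} {a b : V} : (pGraph p).Adj a b ↔ a ≠ b ∧ (p a = b ∨ p b = a) := by
  simp [pGraph, SimpleGraph.fromRel_adj]

/-- `p` is a parent function with root `ρ` and rank `r`. -/
structure IsPar (ρ : V) (p : V → V) (r : V → ℕ) : Prop where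
  root : p ρ = ρ
  lt : ∀ v, v ≠ ρ → r (p v) < r v

lemma IsPar.ne {ρ : V} {p : V → V} {r : V → ℕ} (h : IsPar ρ p r) {v : V} (hv : v ≠ ρ) :
    p v ≠ v := by
  intro e
  have := h.lt v hv
  rw [e] at this
  exact lt_irrefl _ this

lemma IsPar.adj_parent {ρ : V} {p : V → V} {r : V → ℕ} (h : IsPar ρ p r) {v : V} (hv : v ≠ ρ) :
    (pGraph p).Adj v (p v) := by
  rw [pGraph_adj]
  exact ⟨(h.ne hv).symm, Or.inl rfl⟩

lemma IsPar.reachable {ρ : V} {p : V → V} {r : V → ℕ} (h : IsPar ρ p r) (v : V) :
    (pGraph p).Reachable v ρ := by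
  suffices H : ∀ n v, r v = n → (pGraph p).Reachable v ρ from H _ v rfl
  intro n
  induction n using Nat.strong_induction_on with
  | _ n ih =>
    intro v hv
    by_cases hvr : v = ρ
    · rw [hvr]
    · have h1 := h.lt v hvr
      rw [hv] at h1
      exact ((h.adj_parent hvr).reachable).trans (ih _ h1 (p v) rfl)

lemma IsPar.isTree [Finite V] {ρ : V} {p : V → V} {r : V → ℕ} (h : IsPar ρ p r) :
    (pGraph p).IsTree := by
  classical
  have := Fintype.ofFinite V
  rw [SimpleGraph.isTree_iff_connected_and_card]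
  constructor
  · have : Nonempty V := ⟨ρ⟩
    exact ⟨fun u v => (h.reachable u).trans (h.reachable v).symm⟩
  · have h1 : (pGraph p).edgeSet = (fun v => s(v, p v)) '' {v | v ≠ ρ} := by
      ext e
      induction e using Sym2.ind with
      | _ a b =>
        rw [SimpleGraph.mem_edgeSet, pGraph_adj]
        constructor
        · rintro ⟨hab, h2 | h2⟩
          · refine ⟨a, ?_, ?_⟩
            · rintro rfl
              rw [h.root] at h2
              exact hab h2
            · simp [h2]
          · refine ⟨b, ?_, ?_⟩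
            · rintro rfl
              rw [h.root] at h2
              exact hab h2.symm
            · simp [h2, Sym2.eq_swap]
        · rintro ⟨v, hv, hve⟩
          simp only [Sym2.eq_iff] at hve
          rcases hve with ⟨rfl, rfl⟩ | ⟨rfl, rfl⟩
          · exact ⟨(h.ne hv).symm, Or.inl rfl⟩
          · exact ⟨h.ne hv, Or.inr rfl⟩
    have h2 : Set.InjOn (fun v => s(v, p v)) {v | v ≠ ρ} := by
      intro v hv w hw hvw
      simp only [Sym2.eq_iff] at hvw
      rcases hvw with ⟨h3, _⟩ | ⟨h3, h4⟩
      · exact h3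
      · exfalso
        have h5 := h.lt v hv
        have h6 := h.lt w hw
        rw [h4] at h5
        rw [← h3] at h6
        omega
    have h3 : Nat.card (pGraph p).edgeSet = Nat.card {v : V | v ≠ ρ} := by
      rw [h1]
      exact Nat.card_image_of_injOn h2
    rw [h3]
    have h4 : Nat.card {v : V | v ≠ ρ} = Fintype.card V - 1 := by
      rw [Nat.card_coe_set_eq, ← Set.compl_singleton_eq, Set.ncard_compl]
      simp [Nat.card_eq_fintype_card]
    have h5 : 0 < Fintype.card V := Fintype.card_pos_iff.mpr ⟨ρ⟩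
    rw [h4, Nat.card_eq_fintype_card]
    omega

/-- An isomorphism of parent trees fixing the root commutes with the parent maps. -/
lemma iso_comm {ρ ρ' : V} {p p' : V → V} {r r' : V → ℕ} (h : IsPar ρ p r) (h' : IsPar ρ' p' r')
    (φ : pGraph p ≃g pGraph p') (hφ : φ ρ = ρ') (v : V) : φ (p v) = p' (φ v) := by
  suffices H : ∀ n v, r v = n → φ (p v) = p' (φ v) from H _ v rfl
  intro n
  induction n using Nat.strong_induction_on with
  | _ n ih =>
    intro v hv
    by_cases hvr : v = ρ
    · rw [hvr, h.root, hφ, h'.root]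
    · have h1 := h.adj_parent hvr
      have h2 : (pGraph p').Adj (φ v) (φ (p v)) := φ.map_rel_iff.mpr h1
      rw [pGraph_adj] at h2
      rcases h2 with ⟨h3, h4 | h4⟩
      · exact h4.symm
      · exfalso
        by_cases hu : p v = ρ
        · rw [hu, hφ, h'.root] at h4
          rw [← hφ] at h4
          exact hvr (φ.injective h4).symm
        · have h5 := h.lt v hvr
          have h6 := h.lt (p v) hu
          have h7 := ih (r (p v)) (by omega) (p v) rfl
          rw [h4] at h7
          have h8 := φ.injective h7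
          rw [h8] at h6
          omega

/-- `u` is an ancestor of `v`. -/
def Anc (p : V → V) (u v : V) : Prop := ∃ k, p^[k] v = u

lemma anc_refl (p : V → V) (v : V) : Anc p v v := ⟨0, rfl⟩

lemma Anc.trans {p : V → V} {u v w : V} (h1 : Anc p u v) (h2 : Anc p v w) : Anc p u w := by
  obtain ⟨k, rfl⟩ := h1
  obtain ⟨l, rfl⟩ := h2
  exact ⟨k + l, Function.iterate_add_apply p k l w⟩

lemma anc_parent (p : V → V) (v : V) : Anc p (p v) v := ⟨1, rfl⟩

lemma Anc.parent_of_ne {p : V → V} {u v : V} (h : Anc p u v) (hne : u ≠ v) : Anc p u (p v) := by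
  obtain ⟨k, hk⟩ := h
  cases k with
  | zero => exact absurd hk.symm hne
  | succ k => exact ⟨k, by rw [← hk, Function.iterate_succ_apply]⟩

lemma anc_of_anc_parent {p : V → V} {u v : V} (h : Anc p u (p v)) : Anc p u v :=
  h.trans (anc_parent p v)

/-- Rooted trees with depth function. -/
structure IsRT (ρ : V) (p : V → V) (dep : V → ℕ) : Prop where
  root : p ρ = ρ
  dep_root : dep ρ = 0
  dep_p : ∀ v, v ≠ ρ → dep v = dep (p v) + 1

variable {ρ : V} {p : V → V} {dep : V → ℕ}

lemma IsRT.isPar (h : IsRT ρ p dep) : IsPar ρ p dep :=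
  ⟨h.root, fun v hv => by have := h.dep_p v hv; omega⟩

lemma IsRT.dep_parent (h : IsRT ρ p dep) (v : V) : dep (p v) = dep v - 1 := by
  by_cases hv : v = ρ
  · rw [hv, h.root, h.dep_root]
  · have := h.dep_p v hv; omega

lemma IsRT.dep_iterate (h : IsRT ρ p dep) (k : ℕ) (v : V) : dep (p^[k] v) = dep v - k := by
  induction k with
  | zero => simp
  | succ k ih => rw [Function.iterate_succ_apply', h.dep_parent, ih]; omega

lemma IsRT.eq_root (h : IsRT ρ p dep) {v : V} (hv : dep v = 0) : v = ρ := by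
  by_contra hne
  have := h.dep_p v hne
  omega

lemma IsRT.iterate_root (h : IsRT ρ p dep) (k : ℕ) : p^[k] ρ = ρ := by
  induction k with
  | zero => rfl
  | succ k ih => rw [Function.iterate_succ_apply, h.root, ih]

lemma IsRT.anc_root (h : IsRT ρ p dep) (v : V) : Anc p ρ v :=
  ⟨dep v, h.eq_root (by rw [h.dep_iterate]; omega)⟩

lemma IsRT.dep_le (h : IsRT ρ p dep) {u v : V} (ha : Anc p u v) : dep u ≤ dep v := by
  obtain ⟨k, rfl⟩ := ha
  rw [h.dep_iterate]; omega

lemma IsRT.eq_of_anc (h : IsRT ρ p dep) {u v : V} (ha : Anc p u v) (hd : dep v ≤ dep u) :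
    u = v := by
  obtain ⟨k, rfl⟩ := ha
  rw [h.dep_iterate] at hd
  by_cases hv : dep v = 0
  · rw [h.eq_root hv, h.iterate_root]
  · have : k = 0 := by omega
    rw [this]; rfl

lemma IsRT.dep_lt (h : IsRT ρ p dep) {u v : V} (ha : Anc p u v) (hne : u ≠ v) :
    dep u < dep v := by
  by_contra hc
  exact hne (h.eq_of_anc ha (by omega))

lemma IsRT.anc_antisymm (h : IsRT ρ p dep) {u v : V} (h1 : Anc p u v) (h2 : Anc p v u) : u = v :=
  h.eq_of_anc h1 (h.dep_le h2)

lemma IsRT.anc_total (h : IsRT ρ p dep) {a b v : V} (ha : Anc p a v) (hb : Anc p b v)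
    (hd : dep a ≤ dep b) : Anc p a b := by
  obtain ⟨k, rfl⟩ := ha
  obtain ⟨l, rfl⟩ := hb
  rcases Nat.le_total l k with hlk | hkl
  · refine ⟨k - l, ?_⟩
    rw [← Function.iterate_add_apply, Nat.sub_add_cancel hlk]
  · have h1 : Anc p (p^[l] v) (p^[k] v) :=
      ⟨l - k, by rw [← Function.iterate_add_apply, Nat.sub_add_cancel hkl]⟩
    rw [h.eq_of_anc h1 hd]
    exact anc_refl _ _

lemma IsRT.anc_eq (h : IsRT ρ p dep) {a b v : V} (ha : Anc p a v) (hb : Anc p b v)
    (hd : dep a = dep b) : a = b :=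
  h.eq_of_anc (h.anc_total ha hb hd.le) hd.ge

end Pool.Agent.H20
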