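import Pool.Agent.H20.TwoTrees

/-! Assembly: exponentially many pairwise non-isomorphic spanning trees. -/

namespace Pool.Agent.H20

open Finset

set_option linter.unusedSectionVars false

variable {V : Type*} [DecidableEq V] [Fintype V]

lemma HasTrees.mono {G : SimpleGraph V} {N N' : ℝ} (h : HasTrees G N) (hN : N' ≤ N) :
    HasTrees G N' := by
  obtain ⟨𝒯, h1, h2, h3⟩ := h
  exact ⟨𝒯, h1, h2, hN.trans h3⟩

/-- Binomial lower bound. -/
lemma choose_ge (K k D : ℕ) (hD : 2 ≤ D) (h : k * D ^ 6 ≤ K) : D ^ (5 * k) ≤ K.choose k := by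
  by_cases hk : k = 0
  · subst hk; simp
  · have h1 : (K + 1 - k) ^ k ≤ k.factorial * K.choose k := by
      have := Nat.pow_sub_le_descFactorial K k
      rw [Nat.descFactorial_eq_factorial_mul_choose] at this
      exact this
    have h2 : k.factorial ≤ k ^ k := Nat.factorial_le_pow k
    have h3 : k * D ^ 5 ≤ K + 1 - k := by
      have h4 : k * D ^ 6 = k * D ^ 5 * D := by ring
      have h5 : 1 ≤ D ^ 5 := Nat.one_le_pow _ _ (by omega)
      have h6 : k * D ^ 5 * 2 ≤ k * D ^ 5 * D := Nat.mul_le_mul_left _ hD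
      have h7 : k ≤ k * D ^ 5 := Nat.le_mul_of_pos_right _ (by omega)
      omega
    have h4 : (k * D ^ 5) ^ k ≤ k ^ k * K.choose k :=
      calc (k * D ^ 5) ^ k ≤ (K + 1 - k) ^ k := Nat.pow_le_pow_left h3 k
        _ ≤ k.factorial * K.choose k := h1
        _ ≤ _ := Nat.mul_le_mul_right _ h2
    rw [mul_pow, ← pow_mul] at h4
    have h5 : 0 < k ^ k := Nat.pow_pos (Nat.pos_of_ne_zero hk)
    exact Nat.le_of_mul_le_mul_left h4 h5

/-- The rank condition for all toggled parent functions. -/
lemma tog_isPar {G : SimpleGraph V} {ρ : V} {p a : V → V} {dep : V → ℕ}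
    (h : IsRST G ρ p dep) {W : Finset V} (hW : ∀ w ∈ W, w ≠ ρ ∧ Anc p (a w) (p w))
    {S : Finset V} (hS : S ⊆ W) : IsPar ρ (tog p a S) dep := by
  constructor
  · have : ρ ∉ S := fun hh => (hW ρ (hS hh)).1 rfl
    simp [tog, this, h.root]
  · intro v hv
    unfold tog
    split_ifs with hvS
    · have h1 := h.toIsRT.dep_le (hW v (hS hvS)).2
      have h2 := h.dep_p v hv
      omega
    · exact h.toIsRT.isPar.lt v hv

lemma tog_adj {G : SimpleGraph V} {ρ : V} {p a : V → V} {dep : V → ℕ}
    (h : IsRST G ρ p dep) {W : Finset V} (hW : ∀ w ∈ W, G.Adj w (a w))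
    {S : Finset V} (hS : S ⊆ W) (v : V) (hv : v ≠ ρ) : G.Adj v (tog p a S v) := by
  unfold tog
  split_ifs with hvS
  · exact hW v (hS hvS)
  · exact h.adj v hv

/-- Fibres of a parent function of a spanning tree are small. -/
lemma fib_le {G : SimpleGraph V} {ρ : V} {q : V → V} (hadj : ∀ v, v ≠ ρ → G.Adj v (q v)) (d : ℕ)
    (hdeg : ∀ v, (G.neighborSet v).ncard ≤ d) (v : V) : (fib q v).card ≤ d + 1 := by
  classical
  have h1 : ((fib q v : Finset V) : Set V) ⊆ insert ρ (G.neighborSet v) := by
    intro x hx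
    rw [Finset.mem_coe, mem_fib] at hx
    by_cases hxρ : x = ρ
    · exact Or.inl hxρ
    · right
      have := hadj x hxρ
      rw [hx] at this
      exact this.symm
  have h2 := Set.ncard_le_ncard h1 (Set.toFinite _)
  rw [Set.ncard_coe_finset] at h2
  have h3 := Set.ncard_insert_le ρ (G.neighborSet v)
  have := hdeg v
  omega

/-- The number of vertices with a second ancestor neighbour. -/
lemma many_candidates {G : SimpleGraph V} {ρ : V} {p : V → V} {dep : V → ℕ}
    (_h : IsRST G ρ p dep) (hnorm : ∀ u v, G.Adj u v → Anc p u v ∨ Anc p v u) (d : ℕ)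
    (hdeg3 : ∀ v, 3 ≤ (G.neighborSet v).ncard) (hdeg : ∀ v, (G.neighborSet v).ncard ≤ d)
    (W : Finset V) (hW : ∀ v, v ∈ W ↔ ∃ w, G.Adj v w ∧ Anc p w v ∧ w ≠ p v) :
    Fintype.card V ≤ 2 * d * W.card := by
  classical
  let nb : V → Finset V := fun v => univ.filter (fun w => G.Adj v w)
  have hnb : ∀ v, (nb v).card = (G.neighborSet v).ncard := by
    intro v
    rw [← Set.ncard_coe_finset]
    congr 1
    ext w
    simp [nb]
  let up : V → Finset V := fun v => univ.filter (fun w => G.Adj v w ∧ Anc p w v)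
  let dn : V → Finset V := fun v => univ.filter (fun w => G.Adj v w ∧ Anc p v w)
  have h1 : ∀ v, (nb v).card ≤ (up v).card + (dn v).card := by
    intro v
    refine le_trans (Finset.card_le_card ?_) (Finset.card_union_le _ _)
    intro w hw
    simp only [nb, up, dn, mem_union, mem_filter, mem_univ, true_and] at hw ⊢
    rcases hnorm v w hw with h2 | h2
    · exact Or.inr ⟨hw, h2⟩
    · exact Or.inl ⟨hw, h2⟩
  have h2 : ∑ v, (dn v).card = ∑ v, (up v).card := by
    simp only [up, dn, Finset.card_filter]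
    rw [Finset.sum_comm]
    apply Finset.sum_congr rfl
    intro v _
    apply Finset.sum_congr rfl
    intro w _
    simp only [G.adj_comm w v]
  have h3 : ∀ v, (up v).card ≤ 1 + (if v ∈ W then d else 0) := by
    intro v
    split_ifs with hv
    · have h4 : up v ⊆ nb v := by
        intro w hw
        simp only [nb, up, mem_filter, mem_univ, true_and] at hw ⊢
        exact hw.1
      have h5 := Finset.card_le_card h4
      rw [hnb] at h5
      have := hdeg v
      omega
    · have h4 : up v ⊆ {p v} := by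
        intro w hw
        simp only [up, mem_filter, mem_univ, true_and] at hw
        rw [mem_singleton]
        by_contra hne
        exact hv ((hW v).mpr ⟨w, hw.1, hw.2, hne⟩)
      have h5 := Finset.card_le_card h4
      rw [card_singleton] at h5
      omega
  have h4 : 3 * Fintype.card V ≤ ∑ v : V, (nb v).card := by
    calc 3 * Fintype.card V = ∑ v : V, 3 := by simp [mul_comm]
      _ ≤ _ := Finset.sum_le_sum (fun v _ => by rw [hnb]; exact hdeg3 v)
  have h5 : ∑ v : V, (nb v).card ≤ 2 * ∑ v : V, (up v).card := by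
    calc ∑ v : V, (nb v).card ≤ ∑ v : V, ((up v).card + (dn v).card) :=
          Finset.sum_le_sum (fun v _ => h1 v)
      _ = 2 * ∑ v : V, (up v).card := by rw [Finset.sum_add_distrib, h2]; ring
  have h6 : ∑ v : V, (up v).card ≤ Fintype.card V + d * W.card := by
    calc ∑ v : V, (up v).card ≤ ∑ v : V, (1 + (if v ∈ W then d else 0)) :=
          Finset.sum_le_sum (fun v _ => h3 v)
      _ = Fintype.card V + d * W.card := by
        rw [Finset.sum_add_distrib, Finset.sum_ite_mem]
        simp [mul_comm]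
  have h7 : 2 * d * W.card = 2 * (d * W.card) := by ring
  rw [h7]
  omega

theorem main_bound (G : SimpleGraph V) (hG : G.Connected) (d : ℕ)
    (hdeg3 : ∀ v, 3 ≤ (G.neighborSet v).ncard) (hdeg : ∀ v, (G.neighborSet v).ncard ≤ d) :
    HasTrees G (Real.exp (rate (d + 1) / (2 * ((d : ℝ) + 1)) *
      ((Fintype.card V : ℝ) / (4 * ((d : ℝ) + 1) ^ 8) - 1)) / Fintype.card V) := by
  classical
  obtain ⟨ρ⟩ := hG.nonempty
  obtain ⟨p, dep, h, hnorm⟩ := exists_normal G hG ρ
  have hrt := h.toIsRT
  have hd3 : 3 ≤ d := (hdeg3 ρ).trans (hdeg ρ)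
  set D := d + 1 with hD
  set n := Fintype.card V with hn
  have hnpos : 0 < n := Fintype.card_pos_iff.mpr ⟨ρ⟩
  -- candidates
  set W : Finset V := univ.filter (fun v => ∃ w, G.Adj v w ∧ Anc p w v ∧ w ≠ p v) with hWdef
  have hW : ∀ v, v ∈ W ↔ ∃ w, G.Adj v w ∧ Anc p w v ∧ w ≠ p v := by
    intro v; simp [hWdef]
  have ha : ∀ v, ∃ w, v ∈ W → G.Adj v w ∧ Anc p w v ∧ w ≠ p v := by
    intro v
    by_cases hv : v ∈ W
    · obtain ⟨w, hw⟩ := (hW v).mp hv
      exact ⟨w, fun _ => hw⟩
    · exact ⟨v, fun hh => absurd hh hv⟩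
  choose a ha using ha
  have hWρ : ∀ w ∈ W, w ≠ ρ := by
    rintro w hw rfl
    obtain ⟨h1, h2, _⟩ := ha w hw
    obtain ⟨k, hk⟩ := h2
    rw [hrt.iterate_root] at hk
    exact h1.ne hk
  have hWanc : ∀ w ∈ W, w ≠ ρ ∧ Anc p (a w) (p w) := by
    intro w hw
    obtain ⟨h1, h2, _⟩ := ha w hw
    exact ⟨hWρ w hw, h2.parent_of_ne h1.ne.symm⟩
  have hWadj : ∀ w ∈ W, G.Adj w (a w) := fun w hw => (ha w hw).1
  have hWne : ∀ w ∈ W, a w ≠ p w := fun w hw => (ha w hw).2.2
  have hWcard := many_candidates h hnorm d hdeg3 hdeg W hW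
  have hslotdeg : ∀ W' ⊆ W, ∀ s, (W'.filter (fun w => p w = s ∨ a w = s)).card ≤ D := by
    intro W' hW' s
    have h1 : ((W'.filter (fun w => p w = s ∨ a w = s) : Finset V) : Set V) ⊆
        G.neighborSet s := by
      intro x hx
      rw [Finset.mem_coe, mem_filter] at hx
      have hxW := hW' hx.1
      rw [SimpleGraph.mem_neighborSet]
      rcases hx.2 with h2 | h2
      · have := h.adj x (hWρ x hxW)
        rw [h2] at this
        exact this.symm
      · have := hWadj x hxW
        rw [h2] at this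
        exact this.symm
    have h2 := Set.ncard_le_ncard h1 (Set.toFinite _)
    rw [Set.ncard_coe_finset] at h2
    have := hdeg s
    omega
  obtain ⟨U, hUW, hU, hUcard⟩ := exists_slots p a W D hWne (hslotdeg W (Finset.Subset.refl _))
  set K := U.card with hK
  set k := K / D ^ 6 with hk
  have hkK : k * D ^ 6 ≤ K := Nat.div_mul_le_self _ _
  set lf := univ.filter (fun v => (fib p v).card = 0) with hlf
  -- reduce to a bound in terms of k
  have hD1 : (1 : ℝ) ≤ (D : ℝ) := by exact_mod_cast (by omega : 1 ≤ D)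
  have hDd : (D : ℝ) = (d : ℝ) + 1 := by rw [hD]; push_cast; ring
  have hrate := rate_pos (D := D) (by omega)
  have hkreal : (n : ℝ) / (4 * (D : ℝ) ^ 8) - 1 ≤ (k : ℝ) := by
    have h1 : n ≤ 4 * D ^ 2 * K := by
      calc n ≤ 2 * d * W.card := hWcard
        _ ≤ 2 * D * (2 * D * K) := Nat.mul_le_mul (by omega) hUcard
        _ = 4 * D ^ 2 * K := by ring
    have h2 : K < (k + 1) * D ^ 6 := by
      rw [hk]
      have := Nat.lt_mul_div_succ K (Nat.pow_pos (by omega : 0 < D) : 0 < D ^ 6)
      rw [Nat.mul_comm]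
      exact this
    have h3 : n ≤ 4 * D ^ 8 * (k + 1) := by
      calc n ≤ 4 * D ^ 2 * K := h1
        _ ≤ 4 * D ^ 2 * ((k + 1) * D ^ 6) := Nat.mul_le_mul_left _ h2.le
        _ = 4 * D ^ 8 * (k + 1) := by ring
    have h4 : (n : ℝ) ≤ 4 * (D : ℝ) ^ 8 * ((k : ℝ) + 1) := by exact_mod_cast h3
    have h5 : (0 : ℝ) < 4 * (D : ℝ) ^ 8 := by positivity
    rw [sub_le_iff_le_add, div_le_iff₀ h5]
    linarith
  have hred : ∀ {N : ℝ}, Real.exp (rate D / (2 * (D : ℝ)) * (k : ℝ)) ≤ N →
      Real.exp (rate D / (2 * ((d : ℝ) + 1)) *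
      ((n : ℝ) / (4 * ((d : ℝ) + 1) ^ 8) - 1)) / n ≤ N / n := by
    intro N hN
    apply div_le_div_of_nonneg_right _ (by positivity)
    refine le_trans ?_ hN
    rw [← hDd]
    apply Real.exp_le_exp.mpr
    apply mul_le_mul_of_nonneg_left hkreal
    positivity
  by_cases hcase : lf.card ≤ k
  · -- few leaves
    set m := D ^ (4 * k) with hm
    have hmpos : 0 < m := Nat.pow_pos (by omega)
    have hIcard : D ^ (5 * k) ≤ (powersetCard k U).card := by
      rw [card_powersetCard]
      exact choose_ge K k D (by omega) hkK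
    refine HasTrees.mono (N := (D : ℝ) ^ k / n) ?_ (hred ?_)
    · apply hasTrees_of_family G ρ (fun S => tog p a S) dep (powersetCard k U)
        (m := m) (hm0 := hmpos)
      · intro S hS
        rw [mem_powersetCard] at hS
        exact tog_isPar h hWanc (hS.1.trans hUW)
      · intro S hS v hv
        rw [mem_powersetCard] at hS
        exact tog_adj h hWadj (hS.1.trans hUW) v hv
      · intro S hS F hF hiso
        rw [mem_powersetCard] at hS
        have h1 : F.card ≤ ∏ x : V, (fib (tog p a S) (tog p a S x)).card := by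
          apply mult_le hU hS.1 (tog_isPar h hWanc (hS.1.trans hUW)) F _ hiso
          intro S' hS'
          exact (mem_powersetCard.mp (hF hS')).1
        have h2 := prod_fib_le (tog p a S) D (by omega)
          (fib_le (tog_adj h hWadj (hS.1.trans hUW)) d hdeg)
        have h3 := leaves_tog_le p a S
        rw [← hlf, hS.2] at h3
        refine h1.trans (h2.trans (Nat.pow_le_pow_right (by omega) ?_))
        omega
      · have h1 : (n : ℝ) ≠ 0 := by
          exact_mod_cast hnpos.ne'
        have h2 : ((D : ℝ) ^ k / n) * ((m * n : ℕ) : ℝ) = ((D ^ (5 * k) : ℕ) : ℝ) := by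
          rw [hm]
          push_cast
          field_simp
          rw [← pow_add]
          congr 1
          ring
        rw [← hn, h2]
        exact_mod_cast hIcard
    · -- exp (c k) ≤ D ^ k
      have h1 : Real.exp (rate D / (2 * (D : ℝ))) ≤ D := by
        have h2 : rate D / (2 * (D : ℝ)) ≤ rate D := by
          rw [div_le_iff₀ (by positivity)]
          nlinarith
        have h3 := exp_rate_one_le (D := D) (by omega)
        have h4 : (2 : ℝ) ≤ D := by exact_mod_cast (by omega : 2 ≤ D)
        exact (Real.exp_le_exp.mpr h2).trans (h3.trans h4)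
      rw [mul_comm, Real.exp_nat_mul]
      exact pow_le_pow_left₀ (Real.exp_pos _).le h1 k
  · -- many leaves
    push Not at hcase
    have hlfW : lf ⊆ W := by
      intro v hv
      rw [hlf, mem_filter] at hv
      have hleaf : ∀ y, p y ≠ v := by
        intro y hy
        have : y ∈ fib p v := mem_fib.mpr hy
        have := Finset.card_pos.mpr ⟨y, this⟩
        omega
      rw [hW]
      -- a neighbour different from the parent
      have h1 : ¬ (G.neighborSet v) ⊆ ({p v} : Set V) := by
        intro hsub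
        have h2 := Set.ncard_le_ncard hsub (Set.toFinite _)
        rw [Set.ncard_singleton] at h2
        have := hdeg3 v
        omega
      rw [Set.not_subset] at h1
      obtain ⟨w, hw1, hw2⟩ := h1
      refine ⟨w, hw1, ?_, hw2⟩
      rcases hnorm v w hw1 with h3 | h3
      · exfalso
        obtain ⟨c, _, hc, _⟩ := LeafData.exists_child hrt h3 hw1.ne.symm
        exact hleaf c hc
      · exact h3
    obtain ⟨X, hXlf, hX, hXcard⟩ := exists_slots p a lf D (fun w hw => hWne w (hlfW hw))
      (hslotdeg lf hlfW)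
    have hXW : X ⊆ W := hXlf.trans hlfW
    have hLD : LeafData ρ p dep a X := by
      refine ⟨hrt, ?_, ?_, hX⟩
      · intro x hx y hy
        have h1 := hXlf hx
        rw [hlf, mem_filter] at h1
        have : y ∈ fib p x := mem_fib.mpr hy
        have := Finset.card_pos.mpr ⟨y, this⟩
        omega
      · intro x hx
        exact (hWanc x (hXW hx)).2
    have hcore : ∀ v, (coreCh ρ p X v).card ≤ D := by
      intro v
      refine le_trans (Finset.card_le_card ?_) (fib_le h.adj d hdeg v)
      intro y hy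
      simp only [coreCh, mem_filter, mem_univ, true_and] at hy
      exact mem_fib.mpr hy.2.1
    have hgrow := hLD.root_growth D (by omega) hcore n (fun v => hrt.dep_lt_card v)
    -- choose representatives
    have hsurj : Set.SurjOn (fun S => code ρ (tog p a S) n ρ) ((X.powerset : Finset (Finset V)) :
        Set (Finset V)) ((codeSet ρ p a X n ρ : Finset ℕ) : Set ℕ) := by
      intro c hc
      rw [Finset.mem_coe] at hc
      unfold codeSet at hc
      rw [Finset.mem_image] at hc
      obtain ⟨S, hS, rfl⟩ := hc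
      exact ⟨S, hS, rfl⟩
    obtain ⟨I, hIX, hIinj, hIim⟩ := Finset.exists_subset_injOn_image_eq_of_surjOn _ _ hsurj
    have hIX' : ∀ S ∈ I, S ⊆ X := fun S hS => Finset.mem_powerset.mp (hIX hS)
    have hIcard : I.card = (codeSet ρ p a X n ρ).card := by
      rw [← hIim]
      exact (Finset.card_image_of_injOn hIinj).symm
    refine HasTrees.mono (N := Real.exp (rate D * (X.card : ℝ)) / n) ?_ (hred ?_)
    · apply hasTrees_of_family G ρ (fun S => tog p a S) dep I (m := 1) (hm0 := one_pos)
      · intro S hS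
        exact tog_isPar h hWanc ((hIX' S hS).trans hXW)
      · intro S hS v hv
        exact tog_adj h hWadj ((hIX' S hS).trans hXW) v hv
      · intro S hS F hF hiso
        rw [Finset.card_le_one]
        have key : ∀ T ∈ F, T = S := by
          intro T hT
          obtain ⟨φ, hφ1, hφ2⟩ := hiso T hT
          have h1 := code_iso φ hφ1 hφ2 n ρ
          rw [hφ1] at h1
          exact (hIinj hS (hF hT) h1).symm
        intro T hT T' hT'
        rw [key T hT, key T' hT']
      · have h1 : (n : ℝ) ≠ 0 := by exact_mod_cast hnpos.ne'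
        rw [← hn, one_mul, div_mul_cancel₀ _ h1, hIcard]
        exact hgrow
    · apply Real.exp_le_exp.mpr
      have h1 : k ≤ 2 * D * X.card := by omega
      have h2 : (k : ℝ) ≤ 2 * (D : ℝ) * (X.card : ℝ) := by exact_mod_cast h1
      calc rate D / (2 * (D : ℝ)) * (k : ℝ) ≤ rate D / (2 * (D : ℝ)) * (2 * (D : ℝ) * (X.card : ℝ)) :=
            mul_le_mul_of_nonneg_left h2 (by positivity)
        _ = rate D * (X.card : ℝ) := by field_simp

/-- Main theorem: minimum degree at least three and maximum degree at most `d`. -/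
theorem main (d : ℕ) : ∃ c : ℝ, 0 < c ∧ ∀ (V : Type*) [Fintype V] (G : SimpleGraph V),
    G.Connected → (∀ v, 3 ≤ (G.neighborSet v).ncard) → (∀ v, (G.neighborSet v).ncard ≤ d) →
    HasTrees G (Real.exp (c * Fintype.card V)) := by
  have hrate : 0 < rate (d + 1) := rate_pos (by omega)
  set c1 : ℝ := rate (d + 1) / (2 * ((d : ℝ) + 1)) with hc1
  have hc1pos : 0 < c1 := by positivity
  set c2 : ℝ := c1 / (4 * ((d : ℝ) + 1) ^ 8) with hc2
  have hc2pos : 0 < c2 := by positivity
  set B : ℝ := c1 - 1 - Real.log (c2 / 4) with hB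
  obtain ⟨n0, hn0⟩ := exists_nat_ge (4 * B / c2)
  set c : ℝ := min (c2 / 2) (Real.log 2 / ((n0 : ℝ) + 1)) with hc
  have hlog2 : 0 < Real.log 2 := Real.log_pos (by norm_num)
  refine ⟨c, lt_min (by positivity) (by positivity), ?_⟩
  intro V _ G hG hdeg3 hdeg
  classical
  obtain ⟨ρ⟩ := hG.nonempty
  have hnpos : 0 < Fintype.card V := Fintype.card_pos_iff.mpr ⟨ρ⟩
  have hnR : (0 : ℝ) < (Fintype.card V : ℝ) := by exact_mod_cast hnpos
  by_cases hcase : Fintype.card V ≤ n0
  · refine (two_trees G hG hdeg3).mono ?_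
    have h1 : c * (Fintype.card V : ℝ) ≤ Real.log 2 := by
      have h2 : c ≤ Real.log 2 / ((n0 : ℝ) + 1) := min_le_right _ _
      have h3 : (Fintype.card V : ℝ) ≤ (n0 : ℝ) + 1 := by
        have : (Fintype.card V : ℝ) ≤ (n0 : ℝ) := by exact_mod_cast hcase
        linarith
      calc c * (Fintype.card V : ℝ) ≤ Real.log 2 / ((n0 : ℝ) + 1) * ((n0 : ℝ) + 1) :=
            mul_le_mul h2 h3 hnR.le (by positivity)
        _ = Real.log 2 := by field_simp
    calc Real.exp (c * (Fintype.card V : ℝ)) ≤ Real.exp (Real.log 2) := Real.exp_le_exp.mpr h1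
      _ = 2 := Real.exp_log (by norm_num)
  · push Not at hcase
    refine (main_bound G hG d hdeg3 hdeg).mono ?_
    set n : ℝ := (Fintype.card V : ℝ) with hn
    have hn1 : 4 * B / c2 ≤ n := by
      have : (n0 : ℝ) ≤ n := by rw [hn]; exact_mod_cast hcase.le
      linarith
    have hn2 : B ≤ c2 / 4 * n := by
      rw [div_le_iff₀ hc2pos] at hn1
      linarith
    have hlogn : Real.log n ≤ c2 / 4 * n - 1 - Real.log (c2 / 4) := by
      have h1 := Real.log_le_sub_one_of_pos (x := c2 / 4 * n) (by positivity)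
      rw [Real.log_mul (by positivity) (by positivity)] at h1
      linarith
    have h1 : c * n ≤ c2 / 2 * n := mul_le_mul_of_nonneg_right (min_le_left _ _) hnR.le
    have h2 : c1 * (n / (4 * ((d : ℝ) + 1) ^ 8) - 1) = c2 * n - c1 := by
      rw [hc2]; ring
    rw [h2, le_div_iff₀ hnR]
    calc Real.exp (c * n) * n = Real.exp (c * n) * Real.exp (Real.log n) := by
          rw [Real.exp_log hnR]
      _ = Real.exp (c * n + Real.log n) := by rw [Real.exp_add]
      _ ≤ Real.exp (c2 * n - c1) := by
          apply Real.exp_le_exp.mpr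
          linarith

end Pool.Agent.H20
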