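import Pool.Agent.H20.Unrooted

/-! Every connected graph of minimum degree at least three has two non-isomorphic spanning trees. -/

namespace Pool.Agent.H20

open Finset

set_option linter.unusedSectionVars false

variable {V : Type*} [DecidableEq V] [Fintype V]

/-- vertices of degree one -/
def degOne {V : Type*} (T : SimpleGraph V) : Set V := {v | (T.neighborSet v).ncard = 1}

lemma degOne_iso {T T' : SimpleGraph V} (φ : T ≃g T') : (degOne T).ncard = (degOne T').ncard := by
  have h1 : ∀ v, (T'.neighborSet (φ v)).ncard = (T.neighborSet v).ncard := by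
    intro v
    have : T'.neighborSet (φ v) = φ '' (T.neighborSet v) := by
      ext w
      simp only [SimpleGraph.mem_neighborSet, Set.mem_image]
      constructor
      · intro h
        refine ⟨φ.symm w, ?_, by simp⟩
        rw [← φ.map_adj_iff]
        simpa using h
      · rintro ⟨x, hx, rfl⟩
        exact φ.map_adj_iff.mpr hx
    rw [this, Set.ncard_image_of_injective _ φ.injective]
  have h2 : degOne T' = φ '' (degOne T) := by
    ext w
    simp only [degOne, Set.mem_image]
    constructor
    · intro h
      refine ⟨φ.symm w, ?_, by simp⟩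
      change (T.neighborSet (φ.symm w)).ncard = 1
      rw [← h1]
      simpa using h
    · rintro ⟨x, hx, rfl⟩
      change (T'.neighborSet (φ x)).ncard = 1
      rw [h1]
      exact hx
  rw [h2, Set.ncard_image_of_injective _ φ.injective]

lemma degOne_iff {ρ : V} {p : V → V} {r : V → ℕ} (h : IsPar ρ p r) {v : V} (hv : v ≠ ρ) :
    v ∈ degOne (pGraph p) ↔ ∀ w, p w ≠ v := by
  have h1 : (pGraph p).neighborSet v = insert (p v) {w | p w = v} := by
    ext w
    rw [SimpleGraph.mem_neighborSet, pGraph_adj]
    simp only [Set.mem_insert_iff, Set.mem_ofPred_eq]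
    constructor
    · rintro ⟨_, h1 | h1⟩
      · exact Or.inl h1.symm
      · exact Or.inr h1
    · rintro (rfl | rfl)
      · exact ⟨(h.ne hv).symm, Or.inl rfl⟩
      · refine ⟨?_, Or.inr rfl⟩
        intro e
        have hw : w ≠ ρ := by
          rintro rfl
          exact hv h.root
        exact h.ne hw e
  have h2 : p v ∉ {w | p w = v} := by
    intro hh
    have hh' : p (p v) = v := hh
    have h3 := h.lt v hv
    by_cases h4 : p v = ρ
    · rw [h4, h.root] at hh'
      exact hv hh'.symm
    · have h5 := h.lt _ h4
      rw [hh'] at h5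
      omega
  unfold degOne
  rw [Set.mem_ofPred_eq, h1, Set.ncard_insert_of_notMem h2 (Set.toFinite _)]
  constructor
  · intro h3 w hw
    have h4 : {w | p w = v}.ncard = 0 := by omega
    rw [Set.ncard_eq_zero (Set.toFinite _)] at h4
    have : w ∈ {w | p w = v} := hw
    rw [h4] at this
    exact this
  · intro h3
    have : {w | p w = v} = ∅ := by
      rw [Set.eq_empty_iff_forall_notMem]
      exact fun w hw => h3 w hw
    rw [this, Set.ncard_empty]

theorem two_trees (G : SimpleGraph V) (hG : G.Connected)
    (hdeg : ∀ v, 3 ≤ (G.neighborSet v).ncard) : HasTrees G 2 := by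
  classical
  obtain ⟨ρ⟩ := hG.nonempty
  obtain ⟨p, dep, h, hnorm⟩ := exists_normal G hG ρ
  have hrt := h.toIsRT
  obtain ⟨x, _, hx⟩ := Finset.exists_max_image (Finset.univ : Finset V) dep ⟨ρ, Finset.mem_univ _⟩
  have hx' : ∀ v, dep v ≤ dep x := fun v => hx v (Finset.mem_univ _)
  -- a neighbour of a vertex of maximal depth is an ancestor
  have hanc : ∀ z w, dep z = dep x → G.Adj z w → Anc p w z := by
    intro z w hz hzw
    rcases hnorm z w hzw with h1 | h1
    · exfalso
      have h2 := hrt.dep_lt h1 hzw.ne
      have := hx' w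
      omega
    · exact h1
  -- choice of another neighbour
  have hb : ∀ z y, ∃ b, dep z = dep x → G.Adj z b ∧ b ≠ y ∧ b ≠ ρ := by
    intro z y
    by_cases hz : dep z = dep x
    · have h3 := hdeg z
      have h4 : ¬ (G.neighborSet z) ⊆ ({y, ρ} : Set V) := by
        intro hsub
        have h5 := Set.ncard_le_ncard hsub (Set.toFinite _)
        have h6 : ({y, ρ} : Set V).ncard ≤ 2 := Set.ncard_insert_le _ _ |>.trans (by simp)
        omega
      rw [Set.not_subset] at h4
      obtain ⟨b, hb1, hb2⟩ := h4
      refine ⟨b, fun _ => ⟨hb1, ?_, ?_⟩⟩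
      · rintro rfl
        exact hb2 (by simp)
      · rintro rfl
        exact hb2 (by simp)
    · exact ⟨z, fun hh => absurd hh hz⟩
  choose b hb using hb
  set y := p x with hy
  have hxρ : x ≠ ρ := by
    rintro hxr
    obtain ⟨h1, _, h2⟩ := hb x y rfl
    have h3 := hanc x (b x y) rfl h1
    have h4 := hrt.dep_le h3
    rw [hxr, hrt.dep_root] at h4
    exact h2 (by rw [hxr]; exact hrt.eq_root (by omega))
  -- facts on the children of y
  have hch : ∀ z, z ≠ ρ → p z = y → dep z = dep x := by
    intro z hz hzy
    have h1 := hrt.dep_p z hz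
    have h2 := hrt.dep_p x hxρ
    rw [hzy] at h1
    rw [← hy] at h2
    omega
  have hancb : ∀ z, z ≠ ρ → p z = y → Anc p (b z y) y := by
    intro z hz hzy
    have h1 := hb z y (hch z hz hzy)
    have h2 := hanc z _ (hch z hz hzy) h1.1
    have h3 := h2.parent_of_ne h1.1.ne.symm
    rwa [hzy] at h3
  have hyρ : y ≠ ρ := by
    intro hyr
    have h1 := hancb x hxρ rfl
    rw [hyr] at h1
    have h2 := hrt.dep_le h1
    rw [hrt.dep_root] at h2
    have h3 := hrt.eq_root (v := b x ρ) (by omega)
    have h4 := (hb x y rfl).2.2
    rw [hyr] at h4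
    exact h4 h3
  have hnotρ : ∀ z, p z = y → z ≠ ρ := by
    rintro z hz rfl
    rw [hrt.root] at hz
    exact hyρ hz.symm
  let p1 : V → V := fun z => if p z = y then b z y else p z
  have hp1y : ∀ z, p z = y → p1 z = b z y := fun z hz => by simp only [p1, hz, if_true]
  have hp1n : ∀ z, p z ≠ y → p1 z = p z := fun z hz => by simp only [p1, hz, if_false]
  have hpar1 : IsPar ρ p1 dep := by
    constructor
    · rw [hp1n ρ (by rw [hrt.root]; exact hyρ.symm), hrt.root]
    · intro z hz
      by_cases hzy : p z = y
      · rw [hp1y z hzy]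
        have h1 := hrt.dep_le (hancb z hz hzy)
        have h2 := hrt.dep_p z hz
        rw [hzy] at h2
        omega
      · rw [hp1n z hzy]
        exact hrt.isPar.lt z hz
  have hadj1 : ∀ v, v ≠ ρ → G.Adj v (p1 v) := by
    intro v hv
    by_cases hvy : p v = y
    · rw [hp1y v hvy]
      exact (hb v y (hch v hv hvy)).1
    · rw [hp1n v hvy]
      exact h.adj v hv
  have hdeg1 : degOne (pGraph p1) = insert y (degOne (pGraph p)) := by
    ext v
    rw [Set.mem_insert_iff]
    by_cases hvy : v = y
    · subst hvy
      simp only [true_or, iff_true]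
      rw [degOne_iff hpar1 hyρ]
      intro w
      by_cases hw : p w = y
      · rw [hp1y w hw]
        exact (hb w y (hch w (hnotρ w hw) hw)).2.1
      · rw [hp1n w hw]
        exact hw
    · simp only [hvy, false_or]
      by_cases hvρ : v = ρ
      · have h1 : (pGraph p1).neighborSet v = (pGraph p).neighborSet v := by
          ext w
          rw [SimpleGraph.mem_neighborSet, SimpleGraph.mem_neighborSet, pGraph_adj, pGraph_adj,
            hvρ, hpar1.root, hrt.root]
          apply and_congr_right
          intro hne
          apply or_congr_right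
          by_cases hw : p w = y
          · rw [hp1y w hw, hw]
            constructor
            · intro e
              exact absurd e (hb w y (hch w (hnotρ w hw) hw)).2.2
            · intro e
              exact absurd e hyρ
          · rw [hp1n w hw]
        unfold degOne
        rw [Set.mem_ofPred_eq, Set.mem_ofPred_eq, h1]
      · rw [degOne_iff hpar1 hvρ, degOne_iff hrt.isPar hvρ]
        constructor
        · intro h1 w hw
          have h2 : p w ≠ y := by rw [hw]; exact hvy
          have := h1 w
          rw [hp1n w h2] at this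
          exact this hw
        · intro h1 w hw
          by_cases h2 : p w = y
          · rw [hp1y w h2] at hw
            have h3 := hancb w (hnotρ w h2) h2
            rw [hw] at h3
            have h4 : v ≠ y := hvy
            obtain ⟨c, _, hc, _⟩ := LeafData.exists_child hrt h3 h4.symm
            exact h1 c hc
          · rw [hp1n w h2] at hw
            exact h1 w hw
  have hy0 : y ∉ degOne (pGraph p) := by
    rw [degOne_iff hrt.isPar hyρ]
    push Not
    exact ⟨x, rfl⟩
  have hcard : (degOne (pGraph p1)).ncard = (degOne (pGraph p)).ncard + 1 := by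
    rw [hdeg1, Set.ncard_insert_of_notMem hy0 (Set.toFinite _)]
  have hniso : ¬ Nonempty (pGraph p ≃g pGraph p1) := by
    rintro ⟨φ⟩
    have := degOne_iso φ
    omega
  have hne : pGraph p ≠ pGraph p1 := by
    intro e
    rw [e] at hniso
    exact hniso ⟨SimpleGraph.Iso.refl⟩
  refine ⟨{pGraph p, pGraph p1}, ?_, ?_, ?_⟩
  · intro T hT
    rw [Finset.mem_insert, Finset.mem_singleton] at hT
    rcases hT with rfl | rfl
    · exact ⟨pGraph_le hrt.root h.adj, hrt.isPar.isTree⟩
    · exact ⟨pGraph_le hpar1.root hadj1, hpar1.isTree⟩
  · intro T hT T' hT' hiso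
    rw [Finset.mem_insert, Finset.mem_singleton] at hT hT'
    rcases hT with rfl | rfl <;> rcases hT' with rfl | rfl
    · rfl
    · exact absurd hiso hniso
    · obtain ⟨φ⟩ := hiso
      exact absurd ⟨φ.symm⟩ hniso
    · rfl
  · rw [Finset.card_pair hne]
    norm_num

end Pool.Agent.H20
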