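import Pool.Agent.H20.Few
import Pool.Agent.H20.CodeGrowth
import Pool.Agent.H20.Normal

/-! From rooted families to pairwise non-isomorphic spanning trees. -/

namespace Pool.Agent.H20

open Finset

set_option linter.unusedSectionVars false

variable {V : Type*} [DecidableEq V] [Fintype V]

/-- `G` has at least `N` pairwise non-isomorphic spanning trees. -/
def HasTrees {V : Type*} (G : SimpleGraph V) (N : ℝ) : Prop :=
  ∃ 𝒯 : Finset (SimpleGraph V), (∀ T ∈ 𝒯, T ≤ G ∧ T.IsTree) ∧
    (∀ T ∈ 𝒯, ∀ T' ∈ 𝒯, Nonempty (T ≃g T') → T = T') ∧ N ≤ (𝒯.card : ℝ)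

/-- isomorphism setoid on graphs -/
def gSetoid (V : Type*) : Setoid (SimpleGraph V) where
  r T T' := Nonempty (T ≃g T')
  iseqv := ⟨fun T => ⟨SimpleGraph.Iso.refl⟩, fun ⟨e⟩ => ⟨e.symm⟩,
    fun ⟨e⟩ ⟨f⟩ => ⟨e.trans f⟩⟩

lemma pGraph_le {G : SimpleGraph V} {ρ : V} {p : V → V} (hroot : p ρ = ρ)
    (h : ∀ v, v ≠ ρ → G.Adj v (p v)) : pGraph p ≤ G := by
  intro a b hab
  rw [pGraph_adj] at hab
  rcases hab with ⟨hne, h1 | h1⟩
  · have ha : a ≠ ρ := by
      rintro rfl
      rw [hroot] at h1
      exact hne h1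
    have := h a ha
    rwa [h1] at this
  · have hb : b ≠ ρ := by
      rintro rfl
      rw [hroot] at h1
      exact hne h1.symm
    have := h b hb
    rw [h1] at this
    exact this.symm

theorem hasTrees_of_family {ι : Type*} [DecidableEq ι] (G : SimpleGraph V) (ρ : V)
    (P : ι → V → V) (r : V → ℕ) (I : Finset ι)
    (hpar : ∀ i ∈ I, IsPar ρ (P i) r) (hadj : ∀ i ∈ I, ∀ v, v ≠ ρ → G.Adj v (P i v)) (m : ℕ)
    (hm : ∀ i ∈ I, ∀ F ⊆ I, (∀ j ∈ F, RIso ρ (P i) (P j)) → F.card ≤ m)
    (N : ℝ) (hN : N * (m * Fintype.card V : ℕ) ≤ (I.card : ℝ)) (hm0 : 0 < m) :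
    HasTrees G N := by
  classical
  let cls : ι → Quotient (gSetoid V) := fun i => Quotient.mk (gSetoid V) (pGraph (P i))
  have hcls : ∀ i j, cls i = cls j → Nonempty (pGraph (P i) ≃g pGraph (P j)) := by
    intro i j hij
    exact Quotient.exact hij
  have h1 : I.card ≤ (m * Fintype.card V) * (I.image cls).card := by
    apply Finset.card_le_mul_card_image
    intro b hb
    rw [Finset.mem_image] at hb
    obtain ⟨i0, hi0, rfl⟩ := hb
    set F := I.filter (fun a => cls a = cls i0) with hF
    have hφ : ∀ j ∈ F, Nonempty (pGraph (P i0) ≃g pGraph (P j)) := by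
      intro j hj
      rw [hF, mem_filter] at hj
      exact hcls i0 j hj.2.symm
    have hφ' : ∀ j : ι, ∃ φ : V ≃ V, j ∈ F → ∃ ψ : pGraph (P i0) ≃g pGraph (P j), ψ.toEquiv = φ := by
      intro j
      by_cases hj : j ∈ F
      · obtain ⟨ψ⟩ := hφ j hj
        exact ⟨ψ.toEquiv, fun _ => ⟨ψ, rfl⟩⟩
      · exact ⟨Equiv.refl V, fun hh => absurd hh hj⟩
    choose φ hφ2 using hφ'
    have h2 : F.card ≤ m * (F.image (fun j => (φ j).symm ρ)).card := by
      apply Finset.card_le_mul_card_image
      intro v hv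
      rw [Finset.mem_image] at hv
      obtain ⟨j0, hj0, hj0v⟩ := hv
      have hj0I : j0 ∈ I := (Finset.mem_filter.mp hj0).1
      apply hm j0 hj0I
      · intro j hj
        rw [mem_filter] at hj
        exact (Finset.mem_filter.mp hj.1).1
      · intro j hj
        rw [mem_filter] at hj
        obtain ⟨ψ0, hψ0⟩ := hφ2 j0 hj0
        obtain ⟨ψ, hψ⟩ := hφ2 j hj.1
        have hjI : j ∈ I := (Finset.mem_filter.mp hj.1).1
        have hroot : (ψ0.symm.trans ψ) ρ = ρ := by
          have e1 : ψ0.symm ρ = (φ j0).symm ρ := by rw [← hψ0]; rfl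
          have e2 : ∀ x, ψ x = φ j x := by intro x; rw [← hψ]; rfl
          change ψ (ψ0.symm ρ) = ρ
          rw [e1, e2, hj0v, ← hj.2, Equiv.apply_symm_apply]
        refine ⟨(ψ0.symm.trans ψ).toEquiv, hroot, ?_⟩
        intro v
        exact iso_comm (hpar j0 hj0I) (hpar j hjI) (ψ0.symm.trans ψ) hroot v
    refine h2.trans ?_
    exact Nat.mul_le_mul_left _ (Finset.card_le_univ _)
  have hsurj : Set.SurjOn cls (I : Set ι) ((I.image cls : Finset _) : Set _) := by
    intro b hb
    rw [Finset.mem_coe, Finset.mem_image] at hb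
    obtain ⟨i, hi, rfl⟩ := hb
    exact ⟨i, hi, rfl⟩
  obtain ⟨J, hJI, hJinj, hJim⟩ := Finset.exists_subset_injOn_image_eq_of_surjOn _ _ hsurj
  have hJI' : ∀ j ∈ J, j ∈ I := fun j hj => hJI hj
  refine ⟨J.image (fun i => pGraph (P i)), ?_, ?_, ?_⟩
  · intro T hT
    rw [Finset.mem_image] at hT
    obtain ⟨i, hi, rfl⟩ := hT
    exact ⟨pGraph_le (hpar i (hJI' i hi)).root (hadj i (hJI' i hi)), (hpar i (hJI' i hi)).isTree⟩
  · intro T hT T' hT' hiso
    rw [Finset.mem_image] at hT hT'
    obtain ⟨i, hi, rfl⟩ := hT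
    obtain ⟨j, hj, rfl⟩ := hT'
    have h2 : cls i = cls j := Quotient.sound hiso
    rw [hJinj hi hj h2]
  · have h2 : (J.image (fun i => pGraph (P i))).card = J.card := by
      apply Finset.card_image_of_injOn
      intro i hi j hj hij
      apply hJinj hi hj
      simp only [cls]
      simp only at hij
      rw [hij]
    have h3 : (I.image cls).card = J.card := by
      rw [← hJim]
      exact Finset.card_image_of_injOn hJinj
    rw [h2]
    rw [h3] at h1
    have h4 : (I.card : ℝ) ≤ ((m * Fintype.card V : ℕ) : ℝ) * (J.card : ℝ) := by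
      exact_mod_cast h1
    have h5 : 0 < Fintype.card V := Fintype.card_pos_iff.mpr ⟨ρ⟩
    have h6 : (0 : ℝ) < ((m * Fintype.card V : ℕ) : ℝ) := by exact_mod_cast Nat.mul_pos hm0 h5
    have h7 : N * ((m * Fintype.card V : ℕ) : ℝ) ≤ (J.card : ℝ) * ((m * Fintype.card V : ℕ) : ℝ) := by
      linarith
    exact le_of_mul_le_mul_right h7 h6

/-- existence of a large slot-disjoint subfamily -/
lemma exists_slots (p a : V → V) (W : Finset V) (D : ℕ) (hne : ∀ w ∈ W, a w ≠ p w)
    (hdeg : ∀ s, (W.filter (fun w => p w = s ∨ a w = s)).card ≤ D) :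
    ∃ U ⊆ W, Slots p a U ∧ W.card ≤ 2 * D * U.card := by
  classical
  let P : Finset V → Prop := fun U => Slots p a U
  have hP0 : P ∅ := ⟨by simp, by simp, by simp, by simp⟩
  obtain ⟨U, hU, hUmax⟩ := Finset.exists_max_image (W.powerset.filter P) Finset.card
    ⟨∅, by simp [hP0]⟩
  rw [mem_filter, mem_powerset] at hU
  obtain ⟨hUW, hUP⟩ := hU
  refine ⟨U, hUW, hUP, ?_⟩
  have hcov : W ⊆ U.biUnion (fun u => (W.filter (fun w => p w = p u ∨ a w = p u)) ∪
      (W.filter (fun w => p w = a u ∨ a w = a u))) := by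
    intro w hw
    rw [mem_biUnion]
    by_contra hcon
    push Not at hcon
    have hcon' : ∀ u ∈ U, p w ≠ p u ∧ a w ≠ p u ∧ p w ≠ a u ∧ a w ≠ a u := by
      intro u hu
      have := hcon u hu
      simp only [mem_union, mem_filter, hw, true_and, not_or] at this
      tauto
    have hwU : w ∉ U := fun hh => (hcon' w hh).1 rfl
    have hnew : Slots p a (insert w U) := by
      refine ⟨?_, ?_, ?_, ?_⟩
      · intro u hu
        rw [Finset.mem_insert] at hu
        rcases hu with rfl | hu
        · exact hne u hw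
        · exact hUP.ne u hu
      · intro u hu u' hu' e
        rw [Finset.mem_insert] at hu hu'
        rcases hu with rfl | hu <;> rcases hu' with rfl | hu'
        · rfl
        · exact absurd e (hcon' u' hu').1
        · exact absurd e.symm (hcon' u hu).1
        · exact hUP.pp u hu u' hu' e
      · intro u hu u' hu' e
        rw [Finset.mem_insert] at hu hu'
        rcases hu with rfl | hu <;> rcases hu' with rfl | hu'
        · rfl
        · exact absurd e (hcon' u' hu').2.2.2
        · exact absurd e.symm (hcon' u hu).2.2.2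
        · exact hUP.aa u hu u' hu' e
      · intro u hu u' hu' e
        rw [Finset.mem_insert] at hu hu'
        rcases hu with rfl | hu <;> rcases hu' with rfl | hu'
        · rfl
        · exact absurd e (hcon' u' hu').2.2.1
        · exact absurd e.symm (hcon' u hu).2.1
        · exact hUP.pa u hu u' hu' e
    have hmem : insert w U ∈ W.powerset.filter P := by
      rw [mem_filter, mem_powerset]
      exact ⟨Finset.insert_subset hw hUW, hnew⟩
    have := hUmax _ hmem
    rw [Finset.card_insert_of_notMem hwU] at this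
    omega
  calc W.card ≤ _ := Finset.card_le_card hcov
    _ ≤ ∑ u ∈ U, ((W.filter (fun w => p w = p u ∨ a w = p u)) ∪
      (W.filter (fun w => p w = a u ∨ a w = a u))).card := Finset.card_biUnion_le
    _ ≤ ∑ u ∈ U, (D + D) := by
        apply Finset.sum_le_sum
        intro u _
        exact (Finset.card_union_le _ _).trans (Nat.add_le_add (hdeg _) (hdeg _))
    _ = 2 * D * U.card := by simp; ring

end Pool.Agent.H20
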